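import Mathlib

/-!
# Cellular automata, Turing domains and universal computers
-/

set_option autoImplicit false

namespace Pool.Agent.Q201.CU

open Function

/-- configurations: maps from `ℤ^d` to the states -/
abbrev Cfg (d : ℕ) (S : Type) : Type := (Fin d → ℤ) → S

/-- a cellular automaton on `ℤ^d`: quiescent state, finite neighbourhood, local rule -/
structure CA (d : ℕ) (S : Type) where
  /-- the quiescent state -/
  ν : S
  /-- the neighbourhood -/
  nbhd : Finset (Fin d → ℤ)
  /-- the local rule -/
  f : (nbhd → S) → S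
  /-- a quiescent neighbourhood stays quiescent -/
  quiet : f (fun _ => ν) = ν

/-- the translate `c_τ(x) = c(x - τ)` -/
def translate {d : ℕ} {S : Type} (c : Cfg d S) (τ : Fin d → ℤ) : Cfg d S := fun x => c (x - τ)

namespace CA

variable {d : ℕ} {S : Type} (A : CA d S)

/-- the global map -/
def G (c : Cfg d S) : Cfg d S := fun x => A.f fun v => c (x + v.1)

/-- the support of a configuration -/
def Supp (c : Cfg d S) : Set (Fin d → ℤ) := {x | c x ≠ A.ν}

/-- disjoint configurations -/
def Disj (c c' : Cfg d S) : Prop := Disjoint (A.Supp c) (A.Supp c')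

open Classical in
/-- `c ⊔ c'` (used for disjoint configurations): `c` on its support and `c'` elsewhere -/
noncomputable def join (c c' : Cfg d S) : Cfg d S := fun x => if x ∈ A.Supp c then c x else c' x

/-- `c'` is a subconfiguration of `c` -/
def Sub (c' c : Cfg d S) : Prop := ∀ x ∈ A.Supp c', c x = c' x

/-- passive configurations -/
def Passive (c : Cfg d S) : Prop := A.G c = c

/-- completely passive configurations -/
def CompletelyPassive (c : Cfg d S) : Prop := ∀ c', A.Sub c' c → A.Passive c'

/-- `c` passes information to `c'` -/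
def PassesInfo (c c' : Cfg d S) : Prop :=
  ∃ t : ℕ, ∃ x ∈ A.Supp (A.G^[t] c'), A.G^[t] (A.join c c') x ≠ A.G^[t] c' x

open Classical in
/-- the restriction of a configuration to a set of cells, quiescent elsewhere -/
noncomputable def restrict (e : Cfg d S) (W : Set (Fin d → ℤ)) : Cfg d S :=
  fun x => if x ∈ W then e x else A.ν

/-- a recursive sequence of finite configurations: for some numbering of the states, a computable
function lists the cells of the support of the `n`-th configuration with their states -/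
def RecursiveSeq (ι : ℕ → Cfg d S) : Prop :=
  ∃ (k : ℕ) (en : S ≃ Fin k) (g : ℕ → List ((Fin d → ℤ) × Fin k)), Computable g ∧
    ∀ n x s, (x, en s) ∈ g n ↔ ι n x = s ∧ s ≠ A.ν

/-- Turing domains -/
structure TuringDomain (T : Set (Cfg d S)) (ι : ℕ → Cfg d S) : Prop where
  /-- the members are finite -/
  finite : ∀ f ∈ T, (A.Supp f).Finite
  /-- `ι` takes its values in `T` -/
  mem : ∀ n, ι n ∈ T
  /-- `ι` is injective -/
  inj : Injective ι
  /-- `ι` is recursive -/
  recursive : A.RecursiveSeq ι
  /-- the members are completely passive -/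
  passive : ∀ f ∈ T, A.CompletelyPassive f
  /-- the union of finitely many pairwise disjoint translates of members is completely passive -/
  union_passive : ∀ (m : ℕ) (f : Fin m → Cfg d S) (τ : Fin m → Fin d → ℤ), (∀ i, f i ∈ T) →
    (∀ i j, i ≠ j → A.Disj (translate (f i) (τ i)) (translate (f j) (τ j))) →
    ∀ w : Cfg d S, (A.Supp w = ⋃ i, A.Supp (translate (f i) (τ i))) →
      (∀ i, A.Sub (translate (f i) (τ i)) w) → A.CompletelyPassive w

/-- the union of the supports of the members -/
def U (T : Set (Cfg d S)) : Set (Fin d → ℤ) := ⋃ f ∈ T, A.Supp f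

/-- the configuration `c` (not in `T`) computes the partial function `ψ` -/
def Computes (T : Set (Cfg d S)) (ι : ℕ → Cfg d S) (c : Cfg d S) (ψ : ℕ →. ℕ) : Prop :=
  c ∉ T ∧ ∃ α ∈ A.Supp c, ∃ s : S, s ≠ A.ν ∧ ∀ n m, m ∈ ψ n → A.Disj c (ι n) ∧
    ∃ t : ℕ, A.G^[t] (A.join c (ι n)) α = s ∧ (∀ i < t, A.G^[i] (A.join c (ι n)) α ≠ s) ∧
      ¬ A.PassesInfo (A.restrict (A.G^[t] (A.join c (ι n))) (A.U T)ᶜ)
        (A.restrict (A.G^[t] (A.join c (ι n))) (A.U T)) ∧
      A.restrict (A.G^[t] (A.join c (ι n))) (A.U T) = ι m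

/-- computation-universality with respect to a Turing domain -/
def ComputationUniversal (T : Set (Cfg d S)) (ι : ℕ → Cfg d S) : Prop :=
  ∀ ψ : ℕ →. ℕ, Partrec ψ → ∃ c, A.Computes T ι c ψ

/-- universal computers with respect to a Turing domain -/
def UniversalComputer (T : Set (Cfg d S)) (ι : ℕ → Cfg d S) (c : Cfg d S) : Prop :=
  c ∉ T ∧ ∀ ψ : ℕ →. ℕ, Partrec ψ → ∃ f ∈ T, ∃ τ : Fin d → ℤ, A.Disj (translate f τ) c ∧
    translate f τ ∉ T ∧ A.Computes T ι (A.join c (translate f τ)) ψ

end CA

end Pool.Agent.Q201.CU
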