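import Pool.Agent.Q201.CU.Univ
import Pool.Agent.Q201.CU.Defs

/-!
# The automaton and its Turing domains
-/

set_option autoImplicit false

namespace Pool.Agent.Q201.CU

open Function

/-- a configuration on `ℤ` as a configuration on `ℤ^1` -/
def up {S : Type} (e : ℤ → S) : Cfg 1 S := fun x => e (x 0)

theorem vec_eta (x : Fin 1 → ℤ) : (fun _ => x 0) = x := by
  funext i
  rw [Subsingleton.elim i 0]

theorem up_const {S : Type} (c : Cfg 1 S) : up (fun y => c fun _ => y) = c := by
  funext x
  show c (fun _ => x 0) = c x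
  rw [vec_eta]

theorem up_injective {S : Type} : Injective (up : (ℤ → S) → Cfg 1 S) := by
  intro e e' h
  funext y
  exact congrFun h fun _ => y

variable {N : ℕ} {Q : Type} (ins : Q → CI (N + 3) Q)

/-- the cellular automaton -/
def aut : CA 1 (Cell (N + 3) Q) where
  ν := blank (N + 3) Q
  nbhd := {fun _ => -1, fun _ => 0, fun _ => 1}
  f v := rule ins (v ⟨fun _ => -1, by simp⟩) (v ⟨fun _ => 0, by simp⟩) (v ⟨fun _ => 1, by simp⟩)
  quiet := rule_idle ins rfl rfl rfl

theorem aut_G (e : ℤ → Cell (N + 3) Q) : (aut ins).G (up e) = up (stp ins e) := by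
  funext x
  simp only [CA.G, aut, up, stp, Pi.add_apply]
  rw [add_zero, ← sub_eq_add_neg]

theorem aut_iter (e : ℤ → Cell (N + 3) Q) (t : ℕ) :
    (aut ins).G^[t] (up e) = up ((stp ins)^[t] e) := by
  induction t with
  | zero => rfl
  | succ t ih => rw [iterate_succ_apply', iterate_succ_apply', ih, aut_G]

/-- the cell carrying only the marker of register `0` -/
def mk0 (N : ℕ) (Q : Type) : Cell (N + 3) Q :=
  ⟨false, false, false, fun j => decide ((j : ℕ) = 0), none⟩

theorem mk0_ne : mk0 N Q ≠ blank (N + 3) Q := by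
  intro h
  have := congrFun (congrArg Cell.mr h) 0
  simp [mk0, blank] at this

/-- the single marker at `z` -/
def dl (N : ℕ) (Q : Type) (z : ℤ) : ℤ → Cell (N + 3) Q :=
  fun y => if y = z then mk0 N Q else blank (N + 3) Q

theorem dl_injective : Injective (dl N Q) := by
  intro z z' h
  by_contra hne
  have h1 := congrFun h z
  simp only [dl, if_true] at h1
  rw [if_neg hne] at h1
  exact mk0_ne h1

theorem supp_dl (z : ℤ) : (aut ins).Supp (up (dl N Q z)) = {fun _ => z} := by
  ext x
  simp only [CA.Supp, Set.mem_ofPred_eq, Set.mem_singleton_iff, up, dl, aut]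
  constructor
  · intro h
    by_contra hx
    apply h
    rw [if_neg]
    intro h0
    exact hx (by rw [← vec_eta x, h0])
  · rintro rfl
    rw [if_pos rfl]
    exact mk0_ne

theorem translate_dl (z : ℤ) (τ : Fin 1 → ℤ) :
    translate (up (dl N Q z)) τ = up (dl N Q (z + τ 0)) := by
  funext x
  simp only [translate, up, dl, Pi.sub_apply]
  by_cases h : x 0 = z + τ 0
  · rw [if_pos h, if_pos (by omega)]
  · rw [if_neg h, if_neg (by omega)]

/-- configurations without heads are completely passive -/
theorem completelyPassive (c : Cfg 1 (Cell (N + 3) Q)) (hc : ∀ x, (c x).hd = none) :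
    (aut ins).CompletelyPassive c := by
  intro c' hsub
  have h : ∀ x, (c' x).hd = none := by
    intro x
    by_cases hx : c' x = blank (N + 3) Q
    · rw [hx]; rfl
    · rw [← hsub x hx]; exact hc x
  funext x
  exact (rule_idle ins (h _) (h _) (h _)).trans (by
    congr 1
    funext i
    simp)

theorem dl_hd (z y : ℤ) : (dl N Q z y).hd = none := by
  unfold dl
  split_ifs <;> rfl

theorem primrec_pos : Primrec fun n : ℕ => (fun _ : Fin 1 => ((n : ℤ) + 1)) := by
  apply Primrec.fin_curry.2
  have h : Primrec fun n : ℕ => (n : ℤ) + 1 := by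
    apply Primrec.encode_iff.1
    have h2 : Primrec fun n : ℕ => 2 * (n + 1) :=
      Primrec.nat_mul.comp (Primrec.const 2) Primrec.succ
    refine h2.of_eq fun n => ?_
    rfl
  exact h.comp₂ Primrec₂.left

theorem recursive [Finite Q] : (aut ins).RecursiveSeq fun n => up (dl N Q ((n : ℤ) + 1)) := by
  classical
  obtain ⟨k, ⟨en⟩⟩ := Finite.exists_equiv_fin (Cell (N + 3) Q)
  refine ⟨k, en, fun n => [((fun _ : Fin 1 => ((n : ℤ) + 1)), en (mk0 N Q))], ?_, ?_⟩
  · apply Primrec.to_comp
    exact Primrec.list_cons.comp (primrec_pos.pair (Primrec.const _)) (Primrec.const [])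
  · intro n x s
    simp only [List.mem_singleton, Prod.mk.injEq, EmbeddingLike.apply_eq_iff_eq]
    constructor
    · rintro ⟨rfl, rfl⟩
      exact ⟨by simp [up, dl], mk0_ne⟩
    · rintro ⟨h1, h2⟩
      have hx : x 0 = (n : ℤ) + 1 := by
        by_contra hx
        apply h2
        rw [← h1]
        simp only [up, dl, aut]
        rw [if_neg hx]
      refine ⟨by rw [← vec_eta x, hx], ?_⟩
      rw [← h1]
      simp [up, dl, hx]

theorem turingDomain [Finite Q] (T : Set (Cfg 1 (Cell (N + 3) Q)))
    (hT : ∀ c ∈ T, ∃ z, c = up (dl N Q z)) (hι : ∀ n : ℕ, up (dl N Q ((n : ℤ) + 1)) ∈ T) :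
    (aut ins).TuringDomain T fun n => up (dl N Q ((n : ℤ) + 1)) where
  finite := by
    intro c hc
    obtain ⟨z, rfl⟩ := hT c hc
    rw [supp_dl]
    exact Set.finite_singleton _
  mem := hι
  inj := by
    intro n m h
    have := dl_injective (up_injective h)
    omega
  recursive := recursive ins
  passive := by
    intro c hc
    obtain ⟨z, rfl⟩ := hT c hc
    exact completelyPassive ins _ fun x => dl_hd z _
  union_passive := by
    intro m f τ hf _ w hw hsub
    refine completelyPassive ins _ fun x => ?_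
    by_cases hx : w x = blank (N + 3) Q
    · rw [hx]; rfl
    · have : x ∈ (aut ins).Supp w := hx
      rw [hw] at this
      obtain ⟨i, hi⟩ := Set.mem_iUnion.1 this
      rw [hsub i x hi]
      obtain ⟨z, hz⟩ := hT _ (hf i)
      rw [hz, translate_dl]
      exact dl_hd _ _

end Pool.Agent.Q201.CU
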