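import Pool.Agent.Q201.CU.Rule

/-!
# The moves of the head
-/

set_option autoImplicit false

namespace Pool.Agent.Q201.CU

open Function

variable {N : ℕ} {Q : Type}

/-- the configuration with markers `σ j`, left block of length `p`, trail of length `u` and head
`h` at `pos` -/
def cf (σ : Fin N → ℕ) (p u : ℕ) (pos : ℤ) (h : Hd Q) : ℤ → Cell N Q := fun y =>
  { E := decide (y = 0)
    X := decide (-(p : ℤ) ≤ y ∧ y < 0)
    tr := decide (0 ≤ y ∧ y < u)
    mr := fun j => decide (y = σ j)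
    hd := if y = pos then some h else none }

theorem cf_E (σ : Fin N → ℕ) (p u : ℕ) (pos : ℤ) (h : Hd Q) (y : ℤ) :
    (cf σ p u pos h y).E = decide (y = 0) := rfl
theorem cf_X (σ : Fin N → ℕ) (p u : ℕ) (pos : ℤ) (h : Hd Q) (y : ℤ) :
    (cf σ p u pos h y).X = decide (-(p : ℤ) ≤ y ∧ y < 0) := rfl
theorem cf_tr (σ : Fin N → ℕ) (p u : ℕ) (pos : ℤ) (h : Hd Q) (y : ℤ) :
    (cf σ p u pos h y).tr = decide (0 ≤ y ∧ y < u) := rfl
theorem cf_mr (σ : Fin N → ℕ) (p u : ℕ) (pos : ℤ) (h : Hd Q) (y : ℤ) (j : Fin N) :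
    (cf σ p u pos h y).mr j = decide (y = σ j) := rfl
theorem cf_hd (σ : Fin N → ℕ) (p u : ℕ) (pos : ℤ) (h : Hd Q) :
    (cf σ p u pos h pos).hd = some h := if_pos rfl
theorem cf_hd' (σ : Fin N → ℕ) (p u : ℕ) (pos : ℤ) (h : Hd Q) {y : ℤ} (hy : y ≠ pos) :
    (cf σ p u pos h y).hd = none := if_neg hy

variable (ins : Q → CI N Q)

/-- to verify a move it is enough to look at the three cells around the head -/
theorem step_of (σ σ' : Fin N → ℕ) (p p' u u' : ℕ) (pos pos' : ℤ) (h h' : Hd Q)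
    (h0 : rule ins (cf σ p u pos h (pos - 1)) (cf σ p u pos h pos) (cf σ p u pos h (pos + 1)) =
      cf σ' p' u' pos' h' pos)
    (h1 : rule ins (cf σ p u pos h (pos - 1 - 1)) (cf σ p u pos h (pos - 1))
      (cf σ p u pos h pos) = cf σ' p' u' pos' h' (pos - 1))
    (h2 : rule ins (cf σ p u pos h pos) (cf σ p u pos h (pos + 1))
      (cf σ p u pos h (pos + 1 + 1)) = cf σ' p' u' pos' h' (pos + 1))
    (h3 : ∀ y, y ≠ pos → y ≠ pos - 1 → y ≠ pos + 1 → cf σ p u pos h y = cf σ' p' u' pos' h' y) :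
    stp ins (cf σ p u pos h) = cf σ' p' u' pos' h' := by
  funext y
  unfold stp
  by_cases e0 : y = pos
  · subst e0; exact h0
  by_cases e1 : y = pos - 1
  · subst e1
    have : pos - 1 + 1 = pos := by ring
    rw [this]; exact h1
  by_cases e2 : y = pos + 1
  · subst e2
    have : pos + 1 - 1 = pos := by ring
    rw [this]; exact h2
  rw [rule_idle ins (cf_hd' _ _ _ _ _ (by omega)) (cf_hd' _ _ _ _ _ e0)
    (cf_hd' _ _ _ _ _ (by omega))]
  exact h3 y e0 e1 e2

/-- agreement away from the head when the markers do not change there -/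
theorem cf_far (σ σ' : Fin N → ℕ) (p p' u u' : ℕ) (pos pos' : ℤ) (h h' : Hd Q) (y : ℤ)
    (hp : (-(p : ℤ) ≤ y ∧ y < 0) ↔ (-(p' : ℤ) ≤ y ∧ y < 0))
    (hu : (0 ≤ y ∧ y < u) ↔ (0 ≤ y ∧ y < u')) (hσ : ∀ j, y = σ j ↔ y = σ' j)
    (h1 : y ≠ pos) (h2 : y ≠ pos') : cf σ p u pos h y = cf σ' p' u' pos' h' y := by
  apply Cell.ext
  · rfl
  · exact decide_eq_decide.2 hp
  · exact decide_eq_decide.2 hu
  · funext j
    exact decide_eq_decide.2 (hσ j)
  · rw [cf_hd' _ _ _ _ _ h1, cf_hd' _ _ _ _ _ h2]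

theorem upd_iff (σ : Fin N → ℕ) (j : Fin N) (v : ℕ) (y : ℤ) (h1 : y ≠ σ j) (h2 : y ≠ v)
    (i : Fin N) : y = σ i ↔ y = (update σ j v i : ℕ) := by
  by_cases hij : i = j
  · subst hij
    rw [update_self]
    exact ⟨fun h => absurd h h1, fun h => absurd h h2⟩
  · rw [update_of_ne hij]

theorem move_jmp (σ : Fin N → ℕ) (p : ℕ) (q q' : Q) (hq : ins q = .jmp q') :
    stp ins (cf σ p 0 0 (.C q)) = cf σ p 0 0 (.C q') := by
  apply step_of
  · apply Cell.ext
    · rfl
    · simp [rule, isP, cf]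
    · simp [rule, outR, cf, hq]
    · funext j
      simp [rule, rem, addL, addR, cf, hq]
    · simp [rule, own, cf, hq]
  · apply Cell.ext
    · rfl
    · simp [rule, isP, cf]
    · simp [rule, outR, cf]
    · funext j
      simp [rule, rem, addL, addR, cf]
    · simp [rule, own, recv, outR, cf, hq]
  · apply Cell.ext
    · rfl
    · simp [rule, isP, cf]
    · simp [rule, outR, cf]
    · funext j
      simp [rule, rem, addL, addR, cf, hq]
    · simp [rule, own, recv, outR, cf, hq]
  · intro y h0 h1 h2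
    exact cf_far _ _ _ _ _ _ _ _ _ _ _ Iff.rfl Iff.rfl (fun _ => Iff.rfl) h0 h0

theorem move_inc_found (σ : Fin N → ℕ) (p : ℕ) (q q' : Q) (j : Fin N) (hq : ins q = .inc j q')
    (hj : σ j = 0) :
    stp ins (cf σ p 0 0 (.C q)) = cf (update σ j 1) p 0 0 (.C q') := by
  apply step_of
  · apply Cell.ext
    · rfl
    · simp [rule, isP, cf]
    · simp [rule, outR, cf, hq, hj]
    · funext i
      by_cases hij : j = i
      · subst hij; simp [rule, rem, addL, addR, cf, hq, hj]
      · have : i ≠ j := fun h => hij h.symm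
        simp [rule, rem, addL, addR, cf, hq, hij, this]
    · simp [rule, own, cf, hq, hj]
  · apply Cell.ext
    · rfl
    · simp [rule, isP, cf]
    · simp [rule, outR, cf]
    · funext i
      by_cases hij : j = i
      · subst hij
        simp [rule, rem, addL, addR, cf, hj]
      · have : i ≠ j := fun h => hij h.symm
        simp [rule, rem, addL, addR, cf, this]
    · simp [rule, own, recv, outR, cf, hq]
  · apply Cell.ext
    · rfl
    · simp [rule, isP, cf]
    · simp [rule, outR, cf]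
    · funext i
      by_cases hij : j = i
      · subst hij
        simp [rule, rem, addL, addR, cf, hq, hj]
      · have : i ≠ j := fun h => hij h.symm
        simp [rule, rem, addL, addR, cf, hq, hij, this]
    · simp [rule, own, recv, outR, cf, hq, hj]
  · intro y h0 h1 h2
    exact cf_far _ _ _ _ _ _ _ _ _ _ _ Iff.rfl Iff.rfl
      (upd_iff σ j 1 y (by rw [hj]; exact_mod_cast h0) (by push_cast; omega)) h0 h0

end Pool.Agent.Q201.CU
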