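import Pool.Agent.Q201.CU.Moves

/-!
# The moves of the head, second part
-/

set_option autoImplicit false
set_option linter.unusedSimpArgs false

namespace Pool.Agent.Q201.CU

open Function

variable {N : ℕ} {Q : Type} (ins : Q → CI N Q)

/-- the instruction works on register `j` -/
def On (q : Q) (j : Fin N) : Prop := (∃ q', ins q = .inc j q') ∨ ∃ q' q'', ins q = .dec j q' q''

theorem move_start (σ : Fin N → ℕ) (p : ℕ) (q : Q) (j : Fin N) (hq : On ins q j)
    (hj : σ j ≠ 0) :
    stp ins (cf σ p 0 0 (.C q)) = cf σ p 1 1 (.R q) := by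
  have hj' : (0 : ℤ) ≠ σ j := fun h => hj (by exact_mod_cast h.symm)
  rcases hq with ⟨q', hq⟩ | ⟨q', q'', hq⟩
  all_goals
    apply step_of
    · apply Cell.ext
      · rfl
      · simp [rule, isP, cf] <;> omega
      · simp [rule, outR, cf, hq, hj'] <;> omega
      · funext i
        by_cases hij : j = i
        · subst hij
          simp [rule, rem, addL, addR, cf, hq, hj'] <;> omega
        · simp [rule, rem, addL, addR, cf, hq, hij] <;> omega
      · simp [rule, own, recv, outR, cf, hq, hj'] <;> omega
    · apply Cell.ext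
      · rfl
      · simp [rule, isP, cf] <;> omega
      · simp [rule, outR, isL, cf] <;> omega
      · funext i
        simp [rule, rem, addL, addR, cf, hq] <;> omega
      · simp [rule, own, recv, outR, cf, hq] <;> omega
    · apply Cell.ext
      · rfl
      · simp [rule, isP, cf] <;> omega
      · simp [rule, outR, isL, cf] <;> omega
      · funext i
        by_cases hij : j = i
        · subst hij
          simp [rule, rem, addL, addR, cf, hq, hj'] <;> omega
        · simp [rule, rem, addL, addR, cf, hq, hij] <;> omega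
      · simp [rule, own, recv, outR, cf, hq, hj'] <;> omega
    · intro y h0 h1 h2
      exact cf_far _ _ _ _ _ _ _ _ _ _ _ Iff.rfl (by push_cast; omega) (fun _ => Iff.rfl) h0
        (by omega)

theorem move_search (σ : Fin N → ℕ) (p x : ℕ) (q : Q) (j : Fin N) (hq : On ins q j)
    (hx : 1 ≤ x) (hj : σ j ≠ x) :
    stp ins (cf σ p x x (.R q)) = cf σ p (x + 1) (x + 1) (.R q) := by
  have hj' : (x : ℤ) ≠ σ j := fun h => hj (by exact_mod_cast h.symm)
  have hx' : (1 : ℤ) ≤ x := by exact_mod_cast hx
  have e1 : ¬ (x : ℤ) - 1 - 1 = x := by omega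
  have e3 : ¬ x = σ j := fun h => hj h.symm
  rcases hq with ⟨q', hq⟩ | ⟨q', q'', hq⟩
  all_goals
    apply step_of
    · apply Cell.ext
      · rfl
      · simp [rule, isP, cf] <;> omega
      · simp [rule, outR, cf, hq, hj'] <;> omega
      · funext i
        by_cases hij : j = i
        · subst hij
          simp [rule, rem, addL, addR, cf, hq, hj'] <;> omega
        · simp [rule, rem, addL, addR, cf, hq, hij] <;> omega
      · simp [rule, own, recv, outR, cf, hq, hj', e3] <;> omega
    · apply Cell.ext
      · rfl
      · simp [rule, isP, cf] <;> omega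
      · simp only [rule, outR, isL, cf]
        simp <;> omega
      · funext i
        by_cases hij : j = i
        · subst hij
          simp [rule, rem, addL, addR, cf, hq, hj', e1] <;> omega
        · simp [rule, rem, addL, addR, cf, hq, hij, e1] <;> omega
      · simp [rule, own, recv, outR, cf, hq, e1] <;> omega
    · apply Cell.ext
      · rfl
      · simp [rule, isP, cf] <;> omega
      · simp only [rule, outR, isL, cf]
        simp <;> omega
      · funext i
        by_cases hij : j = i
        · subst hij
          simp [rule, rem, addL, addR, cf, hq, hj'] <;> omega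
        · simp [rule, rem, addL, addR, cf, hq, hij] <;> omega
      · simp [rule, own, recv, outR, cf, hq, hj', e3] <;> omega
    · intro y h0 h1 h2
      exact cf_far _ _ _ _ _ _ _ _ _ _ _ Iff.rfl (by push_cast; omega) (fun _ => Iff.rfl) h0
        (by omega)

theorem move_inc (σ : Fin N → ℕ) (p x : ℕ) (q q' : Q) (j : Fin N) (hq : ins q = .inc j q')
    (hx : 1 ≤ x) (hj : σ j = x) :
    stp ins (cf σ p x x (.R q)) = cf (update σ j (x + 1)) p x x (.L q') := by
  have hx' : (1 : ℤ) ≤ x := by exact_mod_cast hx
  have e1 : ¬ (x : ℤ) - 1 - 1 = x := by omega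
  apply step_of
  · apply Cell.ext
    · rfl
    · simp [rule, isP, cf] <;> omega
    · simp [rule, outR, isL, cf, hq, hj] <;> omega
    · funext i
      by_cases hij : j = i
      · subst hij
        simp [rule, rem, addL, addR, cf, hq, hj] <;> omega
      · have : i ≠ j := fun h => hij h.symm
        simp [rule, rem, addL, addR, cf, hq, hij, this] <;> omega
    · simp [rule, own, recv, outR, cf, hq, hj] <;> omega
  · apply Cell.ext
    · rfl
    · simp [rule, isP, cf] <;> omega
    · simp only [rule, outR, isL, cf]
      simp <;> omega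
    · funext i
      by_cases hij : j = i
      · subst hij
        simp [rule, rem, addL, addR, cf, hq, hj, e1] <;> omega
      · have : i ≠ j := fun h => hij h.symm
        simp [rule, rem, addL, addR, cf, hq, hij, this, e1] <;> omega
    · simp [rule, own, recv, outR, cf, hq, e1] <;> omega
  · apply Cell.ext
    · rfl
    · simp [rule, isP, cf] <;> omega
    · simp only [rule, outR, isL, cf]
      simp <;> omega
    · funext i
      by_cases hij : j = i
      · subst hij
        simp [rule, rem, addL, addR, cf, hq, hj] <;> omega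
      · have : i ≠ j := fun h => hij h.symm
        simp [rule, rem, addL, addR, cf, hq, hij, this] <;> omega
    · simp [rule, own, recv, outR, cf, hq, hj] <;> omega
  · intro y h0 h1 h2
    exact cf_far _ _ _ _ _ _ _ _ _ _ _ Iff.rfl Iff.rfl
      (upd_iff σ j (x + 1) y (by rw [hj]; exact_mod_cast h0) (by push_cast; omega)) h0 h0

theorem move_dec (σ : Fin N → ℕ) (p x : ℕ) (q q' q'' : Q) (j : Fin N)
    (hq : ins q = .dec j q' q'') (hx : 1 ≤ x) (hj : σ j = x) :
    stp ins (cf σ p x x (.R q)) = cf (update σ j (x - 1)) p x x (.L q') := by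
  have hx' : (1 : ℤ) ≤ x := by exact_mod_cast hx
  have e1 : ¬ (x : ℤ) - 1 - 1 = x := by omega
  have hc : ((x - 1 : ℕ) : ℤ) = x - 1 := by push_cast [Nat.cast_sub hx]; ring
  apply step_of
  · apply Cell.ext
    · rfl
    · simp [rule, isP, cf] <;> omega
    · simp [rule, outR, isL, cf, hq, hj] <;> omega
    · funext i
      by_cases hij : j = i
      · subst hij
        simp [rule, rem, addL, addR, cf, hq, hj, hc] <;> omega
      · have : i ≠ j := fun h => hij h.symm
        simp [rule, rem, addL, addR, cf, hq, hij, this] <;> omega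
    · simp [rule, own, recv, outR, cf, hq, hj] <;> omega
  · apply Cell.ext
    · rfl
    · simp [rule, isP, cf] <;> omega
    · simp only [rule, outR, isL, cf]
      simp <;> omega
    · funext i
      by_cases hij : j = i
      · subst hij
        simp [rule, rem, addL, addR, cf, hq, hj, hc] <;> omega
      · have : i ≠ j := fun h => hij h.symm
        simp [rule, rem, addL, addR, cf, hq, hij, this, e1] <;> omega
    · simp [rule, own, recv, outR, cf, hq, e1] <;> omega
  · apply Cell.ext
    · rfl
    · simp [rule, isP, cf] <;> omega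
    · simp only [rule, outR, isL, cf]
      simp <;> omega
    · funext i
      by_cases hij : j = i
      · subst hij
        simp [rule, rem, addL, addR, cf, hq, hj, hc] <;> omega
      · have : i ≠ j := fun h => hij h.symm
        simp [rule, rem, addL, addR, cf, hq, hij, this] <;> omega
    · simp [rule, own, recv, outR, cf, hq, hj] <;> omega
  · intro y h0 h1 h2
    exact cf_far _ _ _ _ _ _ _ _ _ _ _ Iff.rfl Iff.rfl
      (upd_iff σ j (x - 1) y (by rw [hj]; exact_mod_cast h0) (by rw [hc]; exact h1)) h0 h0

theorem move_back (σ : Fin N → ℕ) (p x : ℕ) (q : Q) (hx : 1 ≤ x) :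
    stp ins (cf σ p (x + 1) (x + 1) (.L q)) = cf σ p x x (.L q) := by
  have hx' : (1 : ℤ) ≤ x := by exact_mod_cast hx
  have e2 : ¬ (x : ℤ) + 1 + 1 = x := by omega
  apply step_of
  · apply Cell.ext
    · rfl
    · simp [rule, isP, cf] <;> omega
    · simp only [rule, outR, isL, cf]
      simp <;> omega
    · funext i
      simp [rule, rem, addL, addR, cf] <;> omega
    · simp [rule, own, recv, outR, cf] <;> omega
  · apply Cell.ext
    · rfl
    · simp [rule, isP, cf] <;> omega
    · simp only [rule, outR, isL, cf]
      simp <;> omega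
    · funext i
      simp [rule, rem, addL, addR, cf] <;> omega
    · have h1 : ¬ (x : ℤ) = 0 := by omega
      simp [rule, own, recv, outR, cf, h1] <;> omega
  · apply Cell.ext
    · rfl
    · simp [rule, isP, cf] <;> omega
    · simp only [rule, outR, isL, cf]
      simp <;> omega
    · funext i
      simp [rule, rem, addL, addR, cf] <;> omega
    · simp [rule, own, recv, outR, cf, e2] <;> omega
  · intro y h0 h1 h2
    exact cf_far _ _ _ _ _ _ _ _ _ _ _ Iff.rfl (by push_cast; omega) (fun _ => Iff.rfl) h0
      (by omega)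

theorem move_home (σ : Fin N → ℕ) (p : ℕ) (q : Q) :
    stp ins (cf σ p 1 1 (.L q)) = cf σ p 0 0 (.C q) := by
  apply step_of
  · apply Cell.ext
    · rfl
    · simp [rule, isP, cf] <;> omega
    · simp only [rule, outR, isL, cf]
      simp <;> omega
    · funext i
      simp [rule, rem, addL, addR, cf] <;> omega
    · simp [rule, own, recv, outR, cf] <;> omega
  · apply Cell.ext
    · rfl
    · simp [rule, isP, cf] <;> omega
    · simp only [rule, outR, isL, cf]
      simp <;> omega
    · funext i
      simp [rule, rem, addL, addR, cf] <;> omega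
    · simp [rule, own, recv, outR, cf] <;> omega
  · apply Cell.ext
    · rfl
    · simp [rule, isP, cf] <;> omega
    · simp only [rule, outR, isL, cf]
      simp <;> omega
    · funext i
      simp [rule, rem, addL, addR, cf] <;> omega
    · simp [rule, own, recv, outR, cf] <;> omega
  · intro y h0 h1 h2
    exact cf_far _ _ _ _ _ _ _ _ _ _ _ Iff.rfl (by push_cast; omega) (fun _ => Iff.rfl) h0
      (by omega)

theorem move_zero (σ : Fin N → ℕ) (p : ℕ) (q q' q'' : Q) (j : Fin N)
    (hq : ins q = .dec j q' q'') (hj : σ j = 0) :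
    stp ins (cf σ p 0 0 (.C q)) = cf σ p 0 0 (.C q'') := by
  apply step_of
  · apply Cell.ext
    · rfl
    · simp [rule, isP, cf] <;> omega
    · simp [rule, outR, isL, cf, hq, hj] <;> omega
    · funext i
      simp [rule, rem, addL, addR, cf, hq, hj] <;> omega
    · simp [rule, own, recv, outR, cf, hq, hj] <;> omega
  · apply Cell.ext
    · rfl
    · simp [rule, isP, cf] <;> omega
    · simp only [rule, outR, isL, cf]
      simp <;> omega
    · funext i
      simp [rule, rem, addL, addR, cf, hq] <;> omega
    · simp [rule, own, recv, outR, cf, hq] <;> omega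
  · apply Cell.ext
    · rfl
    · simp [rule, isP, cf] <;> omega
    · simp only [rule, outR, isL, cf]
      simp <;> omega
    · funext i
      simp [rule, rem, addL, addR, cf, hq] <;> omega
    · simp [rule, own, recv, outR, cf, hq, hj] <;> omega
  · intro y h0 h1 h2
    exact cf_far _ _ _ _ _ _ _ _ _ _ _ Iff.rfl Iff.rfl (fun _ => Iff.rfl) h0 (by omega)

theorem move_empty (σ : Fin N → ℕ) (q q' q'' : Q) (hq : ins q = .rd q' q'') :
    stp ins (cf σ 0 0 0 (.C q)) = cf σ 0 0 0 (.C q'') := by
  apply step_of
  · apply Cell.ext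
    · rfl
    · simp [rule, isP, cf] <;> omega
    · simp [rule, outR, isL, cf, hq] <;> omega
    · funext i
      simp [rule, rem, addL, addR, cf, hq] <;> omega
    · simp [rule, own, recv, outR, cf, hq] <;> omega
  · apply Cell.ext
    · rfl
    · simp [rule, isP, cf] <;> omega
    · simp only [rule, outR, isL, cf]
      simp <;> omega
    · funext i
      simp [rule, rem, addL, addR, cf, hq] <;> omega
    · simp [rule, own, recv, outR, cf, hq] <;> omega
  · apply Cell.ext
    · rfl
    · simp [rule, isP, cf] <;> omega
    · simp only [rule, outR, isL, cf]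
      simp <;> omega
    · funext i
      simp [rule, rem, addL, addR, cf, hq] <;> omega
    · simp [rule, own, recv, outR, cf, hq] <;> omega
  · intro y h0 h1 h2
    exact cf_far _ _ _ _ _ _ _ _ _ _ _ Iff.rfl Iff.rfl (fun _ => Iff.rfl) h0 (by omega)

theorem move_read (σ : Fin N → ℕ) (p : ℕ) (q q' q'' : Q) (hq : ins q = .rd q' q'')
    (hp : 1 ≤ p) :
    stp ins (cf σ p 0 0 (.C q)) = cf σ p 0 (-1) (.P q') := by
  have hp' : (1 : ℤ) ≤ p := by exact_mod_cast hp
  apply step_of
  · apply Cell.ext
    · rfl
    · simp [rule, isP, cf] <;> omega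
    · simp [rule, outR, isL, cf, hq] <;> omega
    · funext i
      simp [rule, rem, addL, addR, cf, hq] <;> omega
    · simp [rule, own, recv, outR, cf, hq, hp] <;> omega
  · apply Cell.ext
    · rfl
    · simp [rule, isP, cf] <;> omega
    · simp only [rule, outR, isL, cf]
      simp <;> omega
    · funext i
      simp [rule, rem, addL, addR, cf, hq] <;> omega
    · simp [rule, own, recv, outR, cf, hq] <;> omega
  · apply Cell.ext
    · rfl
    · simp [rule, isP, cf] <;> omega
    · simp only [rule, outR, isL, cf]
      simp <;> omega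
    · funext i
      simp [rule, rem, addL, addR, cf, hq] <;> omega
    · simp [rule, own, recv, outR, cf, hq] <;> omega
  · intro y h0 h1 h2
    exact cf_far _ _ _ _ _ _ _ _ _ _ _ Iff.rfl Iff.rfl (fun _ => Iff.rfl) h0 (by omega)

theorem move_probe (σ : Fin N → ℕ) (p i : ℕ) (q : Q) (hi : 1 ≤ i) (hp : i < p) :
    stp ins (cf σ p 0 (-(i : ℤ)) (.P q)) = cf σ p 0 (-((i + 1 : ℕ) : ℤ)) (.P q) := by
  have hp' : (i : ℤ) < p := by exact_mod_cast hp
  have hi' : (1 : ℤ) ≤ i := by exact_mod_cast hi
  have f1 : -(i : ℤ) < 1 := by omega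
  have f2 : -(i : ℤ) - 1 = -1 + -(i : ℤ) := by omega
  have f3 : ¬ -(i : ℤ) + 1 + 1 = -(i : ℤ) := by omega
  apply step_of
  · apply Cell.ext
    · rfl
    · simp [rule, isP, cf] <;> omega
    · simp [rule, outR, isL, cf] <;> omega
    · funext j
      simp [rule, rem, addL, addR, cf] <;> omega
    · simp [rule, own, recv, outR, cf, hp, f1] <;> omega
  · apply Cell.ext
    · rfl
    · simp [rule, isP, cf] <;> omega
    · simp [rule, outR, isL, cf] <;> omega
    · funext j
      simp [rule, rem, addL, addR, cf] <;> omega
    · simp [rule, own, recv, outR, cf, hp, f1, f2] <;> omega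
  · apply Cell.ext
    · rfl
    · simp [rule, isP, cf] <;> omega
    · simp [rule, outR, isL, cf] <;> omega
    · funext j
      simp [rule, rem, addL, addR, cf] <;> omega
    · simp [rule, own, recv, outR, cf, f3] <;> omega
  · intro y h0 h1 h2
    exact cf_far _ _ _ _ _ _ _ _ _ _ _ Iff.rfl Iff.rfl (fun _ => Iff.rfl) h0
      (by push_cast; omega)

theorem move_turn (σ : Fin N → ℕ) (p : ℕ) (q : Q) :
    stp ins (cf σ (p + 1) 0 (-((p + 1 : ℕ) : ℤ)) (.P q)) =
      cf σ p 0 (-((p + 1 : ℕ) : ℤ)) (.B q) := by
  have g1 : ¬ -(p : ℤ) + 1 = -1 + -(p : ℤ) := by omega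
  apply step_of
  · apply Cell.ext
    · rfl
    · simp [rule, isP, cf] <;> omega
    · simp [rule, outR, isL, cf] <;> omega
    · funext j
      simp [rule, rem, addL, addR, cf] <;> omega
    · simp [rule, own, recv, outR, cf] <;> omega
  · apply Cell.ext
    · rfl
    · simp [rule, isP, cf] <;> omega
    · simp [rule, outR, isL, cf] <;> omega
    · funext j
      simp [rule, rem, addL, addR, cf] <;> omega
    · simp [rule, own, recv, outR, cf] <;> omega
  · apply Cell.ext
    · rfl
    · simp [rule, isP, cf] <;> omega
    · simp [rule, outR, isL, cf] <;> omega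
    · funext j
      simp [rule, rem, addL, addR, cf] <;> omega
    · simp [rule, own, recv, outR, cf, g1] <;> omega
  · intro y h0 h1 h2
    exact cf_far _ _ _ _ _ _ _ _ _ _ _ (by push_cast at h0 ⊢; omega) Iff.rfl
      (fun _ => Iff.rfl) h0 h0

theorem move_carry (σ : Fin N → ℕ) (p i : ℕ) (q : Q) (hi : 1 ≤ i) :
    stp ins (cf σ p 0 (-((i + 1 : ℕ) : ℤ)) (.B q)) = cf σ p 0 (-(i : ℤ)) (.B q) := by
  have hi' : (1 : ℤ) ≤ i := by exact_mod_cast hi
  have k1 : ¬ (-1 + -(i : ℤ) - 1 - 1 = -1 + -(i : ℤ)) := by omega
  have k2 : ¬ (-1 + -(i : ℤ) - 1 = 0) := by omega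
  have k3 : ¬ (-1 + -(i : ℤ) - 1 = -(i : ℤ)) := by omega
  apply step_of
  · apply Cell.ext
    · rfl
    · simp [rule, isP, cf] <;> omega
    · simp [rule, outR, isL, cf] <;> omega
    · funext j
      simp [rule, rem, addL, addR, cf] <;> omega
    · simp [rule, own, recv, outR, cf] <;> omega
  · apply Cell.ext
    · rfl
    · simp [rule, isP, cf] <;> omega
    · simp [rule, outR, isL, cf] <;> omega
    · funext j
      simp [rule, rem, addL, addR, cf] <;> omega
    · simp [rule, own, recv, outR, cf, k1, k2, k3] <;> omega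
  · apply Cell.ext
    · rfl
    · simp [rule, isP, cf] <;> omega
    · simp [rule, outR, isL, cf] <;> omega
    · funext j
      simp [rule, rem, addL, addR, cf] <;> omega
    · simp [rule, own, recv, outR, cf] <;> omega
  · intro y h0 h1 h2
    exact cf_far _ _ _ _ _ _ _ _ _ _ _ Iff.rfl Iff.rfl (fun _ => Iff.rfl) h0
      (by push_cast at h2 ⊢; omega)

theorem move_deliver (σ : Fin N → ℕ) (p : ℕ) (q : Q) :
    stp ins (cf σ p 0 (-1) (.B q)) = cf σ p 0 0 (.C q) := by
  apply step_of
  · apply Cell.ext
    · rfl
    · simp [rule, isP, cf] <;> omega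
    · simp [rule, outR, isL, cf] <;> omega
    · funext j
      simp [rule, rem, addL, addR, cf] <;> omega
    · simp [rule, own, recv, outR, cf] <;> omega
  · apply Cell.ext
    · rfl
    · simp [rule, isP, cf] <;> omega
    · simp [rule, outR, isL, cf] <;> omega
    · funext j
      simp [rule, rem, addL, addR, cf] <;> omega
    · simp [rule, own, recv, outR, cf] <;> omega
  · apply Cell.ext
    · rfl
    · simp [rule, isP, cf] <;> omega
    · simp [rule, outR, isL, cf] <;> omega
    · funext j
      simp [rule, rem, addL, addR, cf] <;> omega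
    · simp [rule, own, recv, outR, cf] <;> omega
  · intro y h0 h1 h2
    exact cf_far _ _ _ _ _ _ _ _ _ _ _ Iff.rfl Iff.rfl (fun _ => Iff.rfl) h0 (by omega)

end Pool.Agent.Q201.CU
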