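import Pool.Agent.Q201.CU.Pos

/-!
# There is no universal computer
-/

set_option autoImplicit false

namespace Pool.Agent.Q201.CU

open Function

variable {N : ℕ} {Q : Type} (ins : Q → CI (N + 3) Q)

/-- at some time the restriction to `W` is the output `i`, and the marker stays from then on -/
def Shows (X : Cfg 1 (Cell (N + 3) Q)) (W : Set (Fin 1 → ℤ)) (i : ℕ) : Prop :=
  ∃ t, (aut ins).restrict ((aut ins).G^[t] X) W = up (dl N Q ((i : ℤ) + 1)) ∧
    ∀ s, t ≤ s → (aut ins).G^[s] X (fun _ => (i : ℤ) + 1) = mk0 N Q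

theorem shows_of_computes (T : Set (Cfg 1 (Cell (N + 3) Q))) (c : Cfg 1 (Cell (N + 3) Q)) (i : ℕ)
    (h : (aut ins).Computes T (fun n => up (dl N Q ((n : ℤ) + 1))) c fun _ => Part.some i) :
    Shows ins ((aut ins).join c (up (dl N Q 1))) ((aut ins).U T) i := by
  obtain ⟨_, α, _, s, _, h1⟩ := h
  obtain ⟨_, t, _, _, h2, h3⟩ := h1 0 i (Part.mem_some i)
  have e0 : (((0 : ℕ) : ℤ) + 1) = 1 := rfl
  simp only [e0] at h2 h3
  refine ⟨t, h3, fun k hk => ?_⟩
  obtain ⟨r, rfl⟩ : ∃ r, k = r + t := ⟨k - t, by omega⟩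
  rw [iterate_add_apply]
  set e := (aut ins).G^[t] ((aut ins).join c (up (dl N Q 1))) with he
  have hmp : (aut ins).Passive (up (dl N Q ((i : ℤ) + 1))) :=
    completelyPassive ins _ (fun x => dl_hd _ _) _ (fun x _ => rfl)
  by_contra hne
  apply h2
  refine ⟨r, fun _ => (i : ℤ) + 1, ?_, ?_⟩
  · rw [h3, iter_passive _ hmp, supp_dl]
    rfl
  · rw [join_restrict, h3, iter_passive _ hmp]
    have : up (dl N Q ((i : ℤ) + 1)) (fun _ => (i : ℤ) + 1) = mk0 N Q := by simp [up, dl]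
    rw [this]
    exact hne

theorem shows_aux (X X' : Cfg 1 (Cell (N + 3) Q)) (W : Set (Fin 1 → ℤ))
    (hW : ∀ i : ℕ, (fun _ => (i : ℤ) + 1) ∈ W)
    (hag : ∀ t, ∀ x ∈ W, (aut ins).G^[t] X x = (aut ins).G^[t] X' x) (i j : ℕ) (t t' : ℕ)
    (htt : t ≤ t')
    (h1 : ∀ s, t ≤ s → (aut ins).G^[s] X (fun _ => (i : ℤ) + 1) = mk0 N Q)
    (h2 : (aut ins).restrict ((aut ins).G^[t'] X') W = up (dl N Q ((j : ℤ) + 1))) : i = j := by
  classical
  have h3 := h1 t' htt
  rw [hag t' _ (hW i)] at h3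
  have h4 := congrFun h2 fun _ => (i : ℤ) + 1
  unfold CA.restrict at h4
  rw [if_pos (hW i), h3] at h4
  by_contra hij
  have h5 : up (dl N Q ((j : ℤ) + 1)) (fun _ => (i : ℤ) + 1) = blank (N + 3) Q := by
    simp only [up, dl]
    rw [if_neg]
    omega
  rw [h5] at h4
  exact mk0_ne h4

theorem shows_unique (X X' : Cfg 1 (Cell (N + 3) Q)) (W : Set (Fin 1 → ℤ))
    (hW : ∀ i : ℕ, (fun _ => (i : ℤ) + 1) ∈ W)
    (hag : ∀ t, ∀ x ∈ W, (aut ins).G^[t] X x = (aut ins).G^[t] X' x) (i j : ℕ)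
    (h : Shows ins X W i) (h' : Shows ins X' W j) : i = j := by
  obtain ⟨t, h1, h2⟩ := h
  obtain ⟨t', h1', h2'⟩ := h'
  rcases le_total t t' with htt | htt
  · exact shows_aux ins X X' W hW hag i j t t' htt h2 h1'
  · exact (shows_aux ins X' X W hW (fun s x hx => (hag s x hx).symm) j i t' t htt h2' h1).symm

theorem partrec_const (i : ℕ) : Partrec fun _ : ℕ => (Part.some i : Part ℕ) :=
  (Computable.const i).partrec

/-- no universal computer for the large domain -/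
theorem no_universal (c : Cfg 1 (Cell (N + 3) Q)) :
    ¬ (aut ins).UniversalComputer {c | ∃ z : ℤ, z ≠ 0 ∧ c = up (dl N Q z)}
      (fun n => up (dl N Q ((n : ℤ) + 1))) c := by
  rintro ⟨_, h⟩
  have key : ∀ i : ℕ, Shows ins ((aut ins).join ((aut ins).join c (up (dl N Q 0)))
      (up (dl N Q 1))) ((aut ins).U {c | ∃ z : ℤ, z ≠ 0 ∧ c = up (dl N Q z)}) i := by
    intro i
    obtain ⟨f, ⟨z, _, rfl⟩, τ, _, h1, h2⟩ := h _ (partrec_const i)
    rw [translate_dl] at h1 h2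
    have hz : z + τ 0 = 0 := by
      by_contra hne
      exact h1 ⟨_, hne, rfl⟩
    rw [hz] at h2
    exact shows_of_computes ins _ _ i h2
  have := shows_unique ins _ _ _
    (fun i => mem_U ins (show up (dl N Q ((i : ℤ) + 1)) ∈
      {c | ∃ z : ℤ, z ≠ 0 ∧ c = up (dl N Q z)} from ⟨_, by omega, rfl⟩))
    (fun _ _ _ => rfl) 0 1 (key 0) (key 1)
  exact absurd this (by omega)

theorem confine (L0 : ℤ) (e e' : ℤ → Cell (N + 3) Q) (h : ∀ y ≤ L0, Dead (e y))
    (h' : ∀ y ≤ L0, Dead (e' y)) (hag : ∀ y, L0 < y → e y = e' y) (t : ℕ) :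
    (∀ y ≤ L0, Dead ((stp ins)^[t] e y)) ∧ (∀ y ≤ L0, Dead ((stp ins)^[t] e' y)) ∧
      ∀ y, L0 < y → (stp ins)^[t] e y = (stp ins)^[t] e' y := by
  induction t with
  | zero => exact ⟨h, h', hag⟩
  | succ t ih =>
    obtain ⟨h1, h2, h3⟩ := ih
    rw [iterate_succ_apply', iterate_succ_apply']
    refine ⟨fun y hy => ?_, fun y hy => ?_, fun y hy => ?_⟩
    · show Dead (rule ins _ _ _)
      rw [rule_dead ins (h1 _ (by omega)) (h1 _ hy)]
      exact h1 y hy
    · show Dead (rule ins _ _ _)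
      rw [rule_dead ins (h2 _ (by omega)) (h2 _ hy)]
      exact h2 y hy
    · show rule ins _ _ _ = rule ins _ _ _
      rw [h3 y hy, h3 (y + 1) (by omega)]
      by_cases hy' : L0 < y - 1
      · rw [h3 _ hy']
      · exact rule_left_dead ins (h1 _ (by omega)) (h2 _ (by omega))

theorem dead_dl (z y : ℤ) : Dead (dl N Q z y) := by
  unfold dl
  split_ifs <;> exact ⟨rfl, rfl, rfl, rfl⟩

/-- no finite universal computer for the small domain -/
theorem no_finite_universal (c : Cfg 1 (Cell (N + 3) Q)) (hc : ((aut ins).Supp c).Finite) :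
    ¬ (aut ins).UniversalComputer (Set.range fun n : ℕ => up (dl N Q ((n : ℤ) + 1)))
      (fun n => up (dl N Q ((n : ℤ) + 1))) c := by
  rintro ⟨_, h⟩
  set T : Set (Cfg 1 (Cell (N + 3) Q)) := Set.range fun n : ℕ => up (dl N Q ((n : ℤ) + 1)) with hT
  have hWT : ∀ x ∈ (aut ins).U T, 0 < x 0 := by
    intro x hx
    obtain ⟨f, ⟨n, rfl⟩, hxf⟩ := Set.mem_iUnion₂.1 hx
    rw [supp_dl] at hxf
    rw [Set.mem_singleton_iff] at hxf
    rw [hxf]
    show (0 : ℤ) < (n : ℤ) + 1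
    omega
  -- the programs
  have hprog : ∀ i : ℕ, ∃ z : ℤ, z ≤ 0 ∧
      Shows ins ((aut ins).join ((aut ins).join c (up (dl N Q z))) (up (dl N Q 1)))
        ((aut ins).U T) i := by
    intro i
    obtain ⟨f, ⟨n, rfl⟩, τ, _, h1, h2⟩ := h _ (partrec_const i)
    simp only at h1 h2
    rw [translate_dl] at h1 h2
    refine ⟨_, ?_, shows_of_computes ins _ _ i h2⟩
    by_contra hne
    apply h1
    refine ⟨((n : ℤ) + 1 + τ 0 - 1).toNat, ?_⟩
    simp only
    congr 2
    omega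
  choose z hz hsh using hprog
  -- a bound for the support
  obtain ⟨L0, hL0, hcL⟩ : ∃ L0 : ℤ, L0 < 0 ∧ ∀ x : Fin 1 → ℤ, x 0 ≤ L0 →
      c x = blank (N + 3) Q := by
    obtain ⟨B, hB⟩ := (hc.image fun x => x 0).bddBelow
    refine ⟨min (B - 1) (-1), by omega, fun x hx => ?_⟩
    by_contra hne
    have := hB ⟨x, hne, rfl⟩
    simp only at this
    omega
  let F : ℕ → Set.Icc L0 0 := fun i => ⟨max (z i) L0, le_max_right _ _, max_le (hz i) hL0.le⟩
  have : Finite (Set.Icc L0 0) := (Set.finite_Icc L0 0).to_subtype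
  obtain ⟨i, j, hij, hF⟩ := Finite.exists_ne_map_eq_of_infinite F
  have hF' : max (z i) L0 = max (z j) L0 := congrArg Subtype.val hF
  apply hij
  refine shows_unique ins _ _ ((aut ins).U T) (fun k => mem_U ins ⟨k, rfl⟩) ?_ i j (hsh i) (hsh j)
  by_cases heq : z i = z j
  · rw [heq]
    exact fun _ _ _ => rfl
  have hi : z i ≤ L0 ∧ z j ≤ L0 := by omega
  intro t x hx
  have hx0 := hWT x hx
  rw [← up_const ((aut ins).join ((aut ins).join c (up (dl N Q (z i)))) (up (dl N Q 1))),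
    ← up_const ((aut ins).join ((aut ins).join c (up (dl N Q (z j)))) (up (dl N Q 1))),
    aut_iter, aut_iter]
  have hdead : ∀ w : ℤ, ∀ y ≤ L0,
      Dead ((aut ins).join ((aut ins).join c (up (dl N Q w))) (up (dl N Q 1)) fun _ => y) := by
    intro w y hy
    have h1 : (aut ins).join c (up (dl N Q w)) (fun _ => y) = dl N Q w y :=
      join_neg _ (hcL _ hy)
    by_cases h2 : dl N Q w y = blank (N + 3) Q
    · rw [join_neg (aut ins) (by rw [h1, h2]; rfl)]
      exact dead_dl _ _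
    · rw [join_pos (aut ins) (by rw [h1]; exact h2), h1]
      exact dead_dl _ _
  refine (confine ins L0 _ _ (hdead _) (hdead _) ?_ t).2.2 (x 0) (by omega)
  intro y hy
  have h0 : ∀ w ≤ L0, (aut ins).join c (up (dl N Q w)) (fun _ => y) = c fun _ => y := by
    intro w hw
    by_cases h1 : c (fun _ => y) = (aut ins).ν
    · rw [join_neg _ h1, h1]
      show dl N Q w y = blank (N + 3) Q
      unfold dl
      rw [if_neg (by omega)]
    · rw [join_pos _ h1]
  by_cases h1 : c (fun _ => y) = (aut ins).ν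
  · rw [join_neg (aut ins) (by rw [h0 _ hi.1, h1]), join_neg (aut ins) (by rw [h0 _ hi.2, h1])]
  · have hp : ∀ w ≤ L0, (aut ins).join ((aut ins).join c (up (dl N Q w))) (up (dl N Q 1))
        (fun _ => y) = c fun _ => y := by
      intro w hw
      rw [join_pos (aut ins) (by rw [h0 _ hw]; exact h1), h0 _ hw]
    exact (hp _ hi.1).trans (hp _ hi.2).symm

end Pool.Agent.Q201.CU
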