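import Pool.Agent.Q201.CU.Dom

/-!
# The automaton is computation-universal
-/

set_option autoImplicit false

namespace Pool.Agent.Q201.CU

open Function
open Nat.Partrec (Code)

variable {N : ℕ} {Q : Type} (ins : Q → CI (N + 3) Q)

/-- the computing configuration: origin with control state `q` and all markers except that of
register `0`, and a left block of length `p` -/
def base (N : ℕ) {Q : Type} (q : Q) (p : ℕ) : ℤ → Cell (N + 3) Q := fun y =>
  { E := decide (y = 0)
    X := decide (-(p : ℤ) ≤ y ∧ y < 0)
    tr := false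
    mr := fun j => decide (y = 0 ∧ (j : ℕ) ≠ 0)
    hd := if y = 0 then some (.C q) else none }

theorem base_blank (q : Q) (p : ℕ) (y : ℤ) :
    base N q p y = blank (N + 3) Q ↔ ¬ (-(p : ℤ) ≤ y ∧ y ≤ 0) := by
  constructor
  · rintro h ⟨h1, h2⟩
    by_cases hy : y = 0
    · have := congrArg Cell.E h
      simp [base, blank, hy] at this
    · have := congrArg Cell.X h
      simp only [base, blank, decide_eq_false_iff_not] at this
      omega
  · intro h
    have hy : y ≠ 0 := by omega
    apply Cell.ext
    · simp [base, blank, hy]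
    · simp only [base, blank, decide_eq_false_iff_not]; omega
    · rfl
    · funext j
      simp [base, blank, hy]
    · simp [base, blank, hy]

theorem join_pos {d : ℕ} {S : Type} (A : CA d S) {c c' : Cfg d S} {x : Fin d → ℤ}
    (h : c x ≠ A.ν) : A.join c c' x = c x := by
  classical
  unfold CA.join
  exact if_pos h

theorem join_neg {d : ℕ} {S : Type} (A : CA d S) {c c' : Cfg d S} {x : Fin d → ℤ}
    (h : c x = A.ν) : A.join c c' x = c' x := by
  classical
  unfold CA.join
  exact if_neg fun h' => h' h

theorem join_base (q : Q) (p m : ℕ) :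
    (aut ins).join (up (base N q p)) (up (dl N Q ((m : ℤ) + 1))) =
      up (K (q, reg0 (N + 3) (m + 1), p)) := by
  funext x
  obtain ⟨y, hxy⟩ : ∃ y, x 0 = y := ⟨_, rfl⟩
  by_cases h : -(p : ℤ) ≤ y ∧ y ≤ 0
  · have h1 : base N q p y ≠ blank (N + 3) Q := fun h' => (base_blank q p y).1 h' h
    rw [join_pos (aut ins) (show up (base N q p) x ≠ (aut ins).ν by unfold up; rw [hxy]; exact h1)]
    unfold up
    rw [hxy]
    obtain ⟨h2, h3⟩ := h
    apply Cell.ext
    · rfl
    · rfl
    · simp only [K, base, cf]
      symm
      simp only [decide_eq_false_iff_not]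
      push_cast
      omega
    · funext j
      simp only [K, base, cf, reg0]
      apply decide_eq_decide.2
      split_ifs with hj
      · push_cast; constructor
        · rintro ⟨_, h⟩; exact absurd hj h
        · intro h; omega
      · push_cast; constructor
        · rintro ⟨h, _⟩; exact h
        · intro h; exact ⟨h, hj⟩
    · rfl
  · have h1 : base N q p y = blank (N + 3) Q := (base_blank q p y).2 h
    rw [join_neg (aut ins) (show up (base N q p) x = (aut ins).ν by unfold up; rw [hxy]; exact h1)]
    unfold up
    rw [hxy]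
    have hy0 : y ≠ 0 := by omega
    unfold dl
    split_ifs with hy
    · subst hy
      apply Cell.ext
      · simp only [K, cf, mk0]; symm; simp only [decide_eq_false_iff_not]; omega
      · simp only [K, cf, mk0]; symm; simp only [decide_eq_false_iff_not]; omega
      · simp only [K, cf, mk0]; symm; simp only [decide_eq_false_iff_not]; push_cast; omega
      · funext j
        simp only [K, cf, mk0, reg0]
        apply decide_eq_decide.2
        split_ifs with hj
        · push_cast; exact ⟨fun _ => rfl, fun _ => hj⟩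
        · push_cast; exact ⟨fun h => absurd h hj, fun h => by omega⟩
      · simp only [K, cf, mk0]
        rw [if_neg hy0]
    · apply Cell.ext
      · simp only [K, cf, blank]; symm; simp only [decide_eq_false_iff_not]; omega
      · simp only [K, cf, blank]; symm; simp only [decide_eq_false_iff_not]; omega
      · simp only [K, cf, blank]; symm; simp only [decide_eq_false_iff_not]; push_cast; omega
      · funext j
        simp only [K, cf, blank, reg0]
        symm
        apply decide_eq_false
        split_ifs with hj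
        · push_cast; exact hy
        · push_cast; exact hy0
      · simp only [K, cf, blank]
        rw [if_neg hy0]

/-- outside the origin the final configuration is a single marker -/
theorem K_final (q : Q) (m : ℕ) (y : ℤ) (hy0 : y ≠ 0) :
    K (q, reg0 (N + 3) (m + 1), 0) y = dl N Q ((m : ℤ) + 1) y := by
  unfold dl
  split_ifs with hy
  · subst hy
    apply Cell.ext
    · simp only [K, cf, mk0, decide_eq_false_iff_not]; omega
    · simp only [K, cf, mk0, decide_eq_false_iff_not]; omega
    · simp only [K, cf, mk0, decide_eq_false_iff_not]; push_cast; omega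
    · funext j
      simp only [K, cf, mk0, reg0]
      apply decide_eq_decide.2
      split_ifs with hj
      · push_cast; exact ⟨fun _ => hj, fun _ => rfl⟩
      · push_cast; exact ⟨fun h => by omega, fun h => absurd h hj⟩
    · simp only [K, cf, mk0]
      rw [if_neg hy0]
  · apply Cell.ext
    · simp only [K, cf, blank, decide_eq_false_iff_not]; omega
    · simp only [K, cf, blank, decide_eq_false_iff_not]; push_cast; omega
    · simp only [K, cf, blank, decide_eq_false_iff_not]; push_cast; omega
    · funext j
      simp only [K, cf, blank, reg0]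
      apply decide_eq_false
      split_ifs with hj
      · push_cast; exact hy
      · push_cast; exact hy0
    · simp only [K, cf, blank]
      rw [if_neg hy0]

/-- the halting cell -/
def hcell (N : ℕ) {Q : Type} (q : Q) : Cell (N + 3) Q :=
  ⟨true, false, false, fun j => decide ((j : ℕ) ≠ 0), some (.C q)⟩

theorem K_origin (q : Q) (m : ℕ) : K (q, reg0 (N + 3) (m + 1), 0) 0 = hcell N q := by
  apply Cell.ext
  · rfl
  · rfl
  · rfl
  · funext j
    simp only [K, cf, hcell, reg0]
    apply decide_eq_decide.2
    split_ifs with hj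
    · push_cast; exact ⟨fun h => by omega, fun h => absurd hj h⟩
    · push_cast; exact ⟨fun _ => hj, fun _ => trivial⟩
  · rfl

theorem join_restrict {d : ℕ} {S : Type} (A : CA d S) (e : Cfg d S) (W : Set (Fin d → ℤ)) :
    A.join (A.restrict e Wᶜ) (A.restrict e W) = e := by
  classical
  funext x
  simp only [CA.join, CA.restrict, CA.Supp, Set.mem_ofPred_eq, Set.mem_compl_iff]
  by_cases hx : x ∈ W
  · rw [if_neg (by simp [hx]), if_pos hx]
  · simp only [hx, not_false_eq_true, if_true, if_false]
    by_cases h : e x = A.ν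
    · rw [h]; simp
    · rw [if_pos h]

theorem iter_passive {d : ℕ} {S : Type} (A : CA d S) {e : Cfg d S} (h : A.Passive e) (t : ℕ) :
    A.G^[t] e = e := iterate_fixed h t

/-- passive configurations with passive restriction: no information is passed -/
theorem no_info {d : ℕ} {S : Type} (A : CA d S) (e : Cfg d S) (W : Set (Fin d → ℤ))
    (h1 : A.Passive e) (h2 : A.Passive (A.restrict e W)) :
    ¬ A.PassesInfo (A.restrict e Wᶜ) (A.restrict e W) := by
  classical
  rintro ⟨t, x, hx, hne⟩
  rw [iter_passive A h2] at hx hne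
  rw [join_restrict, iter_passive A h1] at hne
  apply hne
  have hx' : A.restrict e W x ≠ A.ν := hx
  unfold CA.restrict at hx' ⊢
  by_cases h : x ∈ W
  · rw [if_pos h]
  · rw [if_neg h] at hx'
    exact absurd rfl hx'

theorem mem_U {T : Set (Cfg 1 (Cell (N + 3) Q))} {z : ℤ} (h : up (dl N Q z) ∈ T) :
    (fun _ => z) ∈ (aut ins).U T := by
  refine Set.mem_iUnion₂.2 ⟨_, h, ?_⟩
  rw [supp_dl]
  rfl

theorem not_mem_U {T : Set (Cfg 1 (Cell (N + 3) Q))}
    (hT : ∀ c ∈ T, ∃ z, c = up (dl N Q z)) {z : ℤ} (h : up (dl N Q z) ∉ T) (x : Fin 1 → ℤ)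
    (hx : x ∈ (aut ins).U T) : x 0 ≠ z := by
  rintro rfl
  obtain ⟨c, hc, hxc⟩ := Set.mem_iUnion₂.1 hx
  obtain ⟨z, rfl⟩ := hT c hc
  rw [supp_dl] at hxc
  have : x 0 = z := by
    rw [Set.mem_singleton_iff] at hxc
    rw [hxc]
  rw [this] at h
  exact h hc

/-- the automaton built from the universal machine computes every partial recursive function -/
theorem computes (L : ℕ) (ins : Fin (L + 1) ⊕ Bool → CI (N + 3) (Fin (L + 1) ⊕ Bool))
    (hlast : ins (.inl (Fin.last L)) = .jmp (.inl (Fin.last L)))
    (hU : ∀ p n y : ℕ, y ∈ (Denumerable.ofNat Code p).eval n →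
      ∃ T, (mst ins)^[T] (.inr true, reg0 (N + 3) (n + 1), p) =
        (.inl (Fin.last L), reg0 (N + 3) (y + 1), 0) ∧
        ∀ i < T, ((mst ins)^[i] (.inr true, reg0 (N + 3) (n + 1), p)).1 ≠ .inl (Fin.last L))
    (T : Set (Cfg 1 (Cell (N + 3) (Fin (L + 1) ⊕ Bool))))
    (hT : ∀ c ∈ T, ∃ z, c = up (dl N _ z)) (h0 : up (dl N _ 0) ∉ T)
    (hι : ∀ n : ℕ, up (dl N _ ((n : ℤ) + 1)) ∈ T) (ψ : ℕ →. ℕ) (hψ : Partrec ψ) :
    ∃ c, ((aut ins).Supp c).Finite ∧
      (aut ins).Computes T (fun n => up (dl N _ ((n : ℤ) + 1))) c ψ := by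
  classical
  obtain ⟨c0, hc0⟩ := Nat.Partrec.Code.exists_code.1 (Partrec.nat_iff.1 hψ)
  set p := Encodable.encode c0 with hp
  have hpc : Denumerable.ofNat Code p = c0 := Denumerable.ofNat_encode c0
  have hν : (aut ins).ν = blank (N + 3) (Fin (L + 1) ⊕ Bool) := rfl
  refine ⟨up (base N (.inr true) p), ?_, ?_, (fun _ => 0), ?_, hcell N (.inl (Fin.last L)), ?_,
    fun n m hm => ⟨?_, ?_⟩⟩
  · have h1 : (aut ins).Supp (up (base N (.inr true) p)) ⊆
        (fun y : ℤ => (fun _ : Fin 1 => y)) '' Set.Icc (-(p : ℤ)) 0 := by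
      intro x hx
      refine ⟨x 0, ?_, vec_eta x⟩
      have hx' : base N (.inr true) p (x 0) ≠ blank (N + 3) (Fin (L + 1) ⊕ Bool) := hx
      by_contra h
      exact hx' ((base_blank _ p _).2 h)
    exact ((Set.finite_Icc _ _).image _).subset h1
  · intro hc
    obtain ⟨z, hz⟩ := hT _ hc
    have h1 := congrArg Cell.E (congrFun hz fun _ => 0)
    have h2 : ∀ y, (dl N (Fin (L + 1) ⊕ Bool) z y).E = false := by
      intro y; unfold dl; split_ifs <;> rfl
    have h3 : (base N (Sum.inr true : Fin (L + 1) ⊕ Bool) p 0).E = false := h1.trans (h2 0)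
    simp [base] at h3
  · show base N (.inr true) p 0 ≠ blank (N + 3) (Fin (L + 1) ⊕ Bool)
    intro h
    exact (base_blank _ p 0).1 h (by omega)
  · intro h
    have := congrArg Cell.E h
    simp [hcell, hν, blank] at this
  · unfold CA.Disj
    rw [supp_dl, Set.disjoint_singleton_right]
    intro h
    have h' : base N (.inr true) p ((n : ℤ) + 1) ≠ blank (N + 3) (Fin (L + 1) ⊕ Bool) := h
    exact h' ((base_blank _ p _).2 (by omega))
  · have hy : m ∈ (Denumerable.ofNat Code p).eval n := by
      rw [hpc, hc0]; exact hm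
    obtain ⟨T0, hT0, hT1⟩ := hU p n m hy
    obtain ⟨t, ht0, ht1⟩ := reach_run (ins := ins) (last := .inl (Fin.last L)) _ T0 hT1
    rw [hT0] at ht0
    have hfix : stp ins (K (.inl (Fin.last L), reg0 (N + 3) (m + 1), 0)) =
        K (.inl (Fin.last L), reg0 (N + 3) (m + 1), 0) :=
      move_jmp ins _ _ _ _ hlast
    have hpass : (aut ins).Passive (up (K (.inl (Fin.last L), reg0 (N + 3) (m + 1), 0))) := by
      unfold CA.Passive
      rw [aut_G, hfix]
    have hres : (aut ins).restrict (up (K (.inl (Fin.last L), reg0 (N + 3) (m + 1), 0)))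
        ((aut ins).U T) = up (dl N _ ((m : ℤ) + 1)) := by
      funext x
      simp only [CA.restrict, up]
      by_cases hx : x ∈ (aut ins).U T
      · rw [if_pos hx]
        exact K_final _ m _ (not_mem_U ins hT h0 x hx)
      · rw [if_neg hx, hν]
        unfold dl
        rw [if_neg]
        intro h
        apply hx
        have := mem_U ins (hι m)
        rw [← h, vec_eta] at this
        exact this
    have hmp : (aut ins).Passive (up (dl N _ ((m : ℤ) + 1))) :=
      completelyPassive ins _ (fun x => dl_hd _ _) _ (fun x _ => rfl)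
    refine ⟨t, ?_⟩
    rw [join_base, aut_iter, ht0]
    refine ⟨K_origin _ m, fun i hi => ?_, ?_, hres⟩
    · rw [aut_iter]
      intro h
      apply ht1 i hi
      have h' : (stp ins)^[i] (K (.inr true, reg0 (N + 3) (n + 1), p)) 0 =
        hcell N (.inl (Fin.last L)) := h
      rw [h']
      rfl
    · apply no_info _ _ _ hpass
      rw [hres]
      exact hmp

end Pool.Agent.Q201.CU
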