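import Pool.Agent.Q201.CU.Sim
import Pool.Agent.Helper273.Reg

/-!
# A universal counter program
-/

set_option autoImplicit false

namespace Pool.Agent.Q201.CU

open Function Pool.Agent.Helper273.Reg
open Nat.Partrec (Code)

/-- value of the bounded evaluation, shifted by one; `0` if there is none -/
def F3 (v : List.Vector ℕ 3) : ℕ :=
  Option.elim (Code.evaln v.head (Denumerable.ofNat Code v.tail.head) (v.tail.tail.head - 1)) 0
    Nat.succ

theorem F3_primrec : Nat.Primrec' F3 := by
  have h1 : Primrec fun v : List.Vector ℕ 3 => (Denumerable.ofNat Code v.tail.head) :=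
    (Primrec.ofNat Code).comp (Primrec.vector_head.comp Primrec.vector_tail)
  have h0 : Primrec fun v : List.Vector ℕ 3 => v.tail.tail.head - 1 :=
    Primrec.pred.comp (Primrec.vector_head.comp (Primrec.vector_tail.comp Primrec.vector_tail))
  have h2 : Primrec fun v : List.Vector ℕ 3 =>
      Code.evaln v.head (Denumerable.ofNat Code v.tail.head) (v.tail.tail.head - 1) := by
    have h3 : Primrec fun v : List.Vector ℕ 3 =>
        (((v.head, Denumerable.ofNat Code v.tail.head), v.tail.tail.head - 1) :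
          (ℕ × Code) × ℕ) :=
      Primrec.pair (Primrec.pair Primrec.vector_head h1) h0
    exact Nat.Partrec.Code.primrec_evaln.comp h3
  have h4 : Primrec F3 := by
    have h5 := Primrec.option_casesOn h2 (Primrec.const 0)
      (Primrec.succ.comp₂ Primrec₂.right : Primrec₂ fun (_ : List.Vector ℕ 3) (y : ℕ) => y.succ)
    refine h5.of_eq fun v => ?_
    unfold F3
    cases Code.evaln v.head (Denumerable.ofNat Code v.tail.head) (v.tail.tail.head - 1) <;> rfl
  exact Nat.Primrec'.of_prim h4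

/-- test for zero -/
def isz (v : List.Vector ℕ 1) : ℕ := if v.head = 0 then 1 else 0

theorem isz_primrec : Nat.Primrec' isz := by
  refine Nat.Primrec'.of_prim ?_
  exact Primrec.ite (Primrec.eq.comp Primrec.vector_head (Primrec.const 0)) (Primrec.const 1)
    (Primrec.const 0)

/-- a state with five registers -/
def S5 (a b c d e : ℕ) : ℕ → ℕ := fun r =>
  if r = 0 then a else if r = 1 then b else if r = 2 then c else if r = 3 then d else
    if r = 4 then e else 0

theorem S5_zero (a b c d e r : ℕ) (hr : 5 ≤ r) : S5 a b c d e r = 0 := by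
  unfold S5
  rw [if_neg (by omega), if_neg (by omega), if_neg (by omega), if_neg (by omega),
    if_neg (by omega)]

theorem S5_up0 (a b c d e x : ℕ) : update (S5 a b c d e) 0 x = S5 x b c d e := by
  funext r
  rcases r with _ | _ | _ | _ | _ | r <;> simp [S5]

theorem S5_up1 (a b c d e x : ℕ) : update (S5 a b c d e) 1 x = S5 a x c d e := by
  funext r
  rcases r with _ | _ | _ | _ | _ | r <;> simp [S5]

theorem S5_up2 (a b c d e x : ℕ) : update (S5 a b c d e) 2 x = S5 a b x d e := by
  funext r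
  rcases r with _ | _ | _ | _ | _ | r <;> simp [S5]

theorem S5_up3 (a b c d e x : ℕ) : update (S5 a b c d e) 3 x = S5 a b c x e := by
  funext r
  rcases r with _ | _ | _ | _ | _ | r <;> simp [S5]

theorem S5_up4 (a b c d e x : ℕ) : update (S5 a b c d e) 4 x = S5 a b c d x := by
  funext r
  rcases r with _ | _ | _ | _ | _ | r <;> simp [S5]

theorem exists_prog : ∃ pr : Cmd, ∀ (p n y : ℕ), y ∈ (Denumerable.ofNat Code p).eval n →
    Exec pr (S5 (n + 1) p 0 0 0) (S5 (y + 1) 0 0 0 0) := by
  obtain ⟨cA, hA⟩ := comp_of_primrec F3_primrec ![2, 1, 0] 4 5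
    (by intro i; fin_cases i <;> simp) (by omega) (by intro i; fin_cases i <;> simp)
  obtain ⟨cB, hB⟩ := comp_of_primrec isz_primrec ![4] 3 5
    (by intro i; fin_cases i; simp) (by omega) (by intro i; fin_cases i; simp)
  have eA : ∀ a b c : ℕ, Exec cA (S5 a b c 0 0) (S5 a b c 0 (F3 (c ::ᵥ b ::ᵥ a ::ᵥ .nil))) := by
    intro a b c
    refine (hA (S5 a b c 0 0) (fun r hr => S5_zero _ _ _ _ _ r hr) (by simp [S5])).congr rfl ?_
    have e1 : (List.Vector.ofFn fun i : Fin 3 => S5 a b c 0 0 (![2, 1, 0] i))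
        = c ::ᵥ b ::ᵥ a ::ᵥ List.Vector.nil := rfl
    rw [e1, S5_up4]
  have eB : ∀ a b c e : ℕ, Exec cB (S5 a b c 0 e) (S5 a b c (if e = 0 then 1 else 0) e) := by
    intro a b c e
    refine (hB (S5 a b c 0 e) (fun r hr => S5_zero _ _ _ _ _ r hr) (by simp [S5])).congr rfl ?_
    have e1 : (List.Vector.ofFn fun i : Fin 1 => S5 a b c 0 e (![4] i))
        = e ::ᵥ List.Vector.nil := rfl
    rw [e1]
    have e2 : isz (e ::ᵥ List.Vector.nil) = if e = 0 then 1 else 0 := rfl
    rw [e2, S5_up3]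
  set body : Cmd := .seq cA (.seq cB (.inc 2)) with hbody
  have ebody : ∀ a b c : ℕ, Exec body (S5 a b c 0 0)
      (S5 a b (c + 1) (if F3 (c ::ᵥ b ::ᵥ a ::ᵥ .nil) = 0 then 1 else 0)
        (F3 (c ::ᵥ b ::ᵥ a ::ᵥ .nil))) := by
    intro a b c
    refine Exec.seq (eA a b c) (Exec.seq (eB a b c _) ((Exec.inc _ _).congr rfl ?_))
    rw [S5_up2]
    rfl
  refine ⟨.seq (.inc 3) (.seq (.loop 3 body) (.seq (clear 0) (.seq (clear 1) (.seq (clear 2)
    (move 4 0))))), fun p n y hy => ?_⟩
  -- the least bound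
  have hex : ∃ k, F3 (k ::ᵥ p ::ᵥ (n + 1) ::ᵥ .nil) ≠ 0 := by
    obtain ⟨k, hk⟩ := Nat.Partrec.Code.evaln_complete.1 hy
    refine ⟨k, ?_⟩
    have : Code.evaln k (Denumerable.ofNat Code p) n = some y := hk
    simp [F3, this]
  classical
  set k := Nat.find hex with hk
  have hk1 : F3 (k ::ᵥ p ::ᵥ (n + 1) ::ᵥ .nil) = y + 1 := by
    have h := Nat.find_spec hex
    rw [← hk] at h
    have e3 : F3 (k ::ᵥ p ::ᵥ (n + 1) ::ᵥ .nil) =
      Option.elim (Code.evaln k (Denumerable.ofNat Code p) n) 0 Nat.succ := rfl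
    rw [e3] at h ⊢
    rcases hv : Code.evaln k (Denumerable.ofNat Code p) n with _ | z
    · rw [hv] at h
      exact absurd rfl h
    · have hz : z ∈ (Denumerable.ofNat Code p).eval n :=
        Nat.Partrec.Code.evaln_sound (k := k) (by rw [hv]; exact rfl)
      have : z = y := Part.mem_unique hz hy
      subst this
      rfl
  have hk0 : ∀ i < k, F3 (i ::ᵥ p ::ᵥ (n + 1) ::ᵥ .nil) = 0 := by
    intro i hi
    by_contra h
    exact Nat.find_min hex hi h
  have hloop : ∀ d i, i + d = k → Exec (.loop 3 body) (S5 (n + 1) p i 1 0)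
      (S5 (n + 1) p (k + 1) 0 (y + 1)) := by
    intro d
    induction d with
    | zero =>
      intro i hi
      have : i = k := by omega
      rw [this]
      refine Exec.loop_succ (k := 0) (by simp [S5]) ((ebody (n + 1) p k).congr ?_ rfl) ?_
      · rw [S5_up3]
      · rw [hk1, if_neg (by omega)]
        exact Exec.loop_zero (by simp [S5])
    | succ d ih =>
      intro i hi
      refine Exec.loop_succ (k := 0) (by simp [S5]) ((ebody (n + 1) p i).congr ?_ rfl) ?_
      · rw [S5_up3]
      · rw [hk0 i (by omega), if_pos rfl]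
        exact ih (i + 1) (by omega)
  refine Exec.seq ((Exec.inc 3 _).congr rfl (?_ : _ = S5 (n + 1) p 0 1 0)) (Exec.seq
    (hloop k 0 (by omega)) (Exec.seq ((exec_clear 0 _).congr rfl
      (?_ : _ = S5 0 p (k + 1) 0 (y + 1))) (Exec.seq ((exec_clear 1 _).congr rfl
      (?_ : _ = S5 0 0 (k + 1) 0 (y + 1))) (Exec.seq ((exec_clear 2 _).congr rfl
      (?_ : _ = S5 0 0 0 0 (y + 1))) ((exec_move (by omega) _).congr rfl ?_)))))
  · rw [S5_up3]; rfl
  · rw [S5_up0]
  · rw [S5_up1]
  · rw [S5_up2]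
  · rw [S5_up4, S5_up0]
    have : S5 0 0 0 0 (y + 1) 0 + S5 0 0 0 0 (y + 1) 4 = y + 1 := by simp [S5]
    rw [this]

end Pool.Agent.Q201.CU
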