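import Mathlib

/-!
# A cellular automaton simulating a counter machine: the local rule
-/

set_option autoImplicit false

namespace Pool.Agent.Q201.CU

/-- instructions: increment, decrement (second target if the register is zero), jump, and read
one symbol of the left block (second target if the block is empty) -/
inductive CI (N : ℕ) (Q : Type)
  | inc (r : Fin N) (q : Q)
  | dec (r : Fin N) (q q' : Q)
  | jmp (q : Q)
  | rd (q q' : Q)

/-- heads: `C` control, `R` searching to the right, `L` returning to the left, `P` probing the
left block, `B` coming back from the left block -/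
inductive Hd (Q : Type)
  | C (q : Q)
  | R (q : Q)
  | L (q : Q)
  | P (q : Q)
  | B (q : Q)

/-- cells -/
@[ext] structure Cell (N : ℕ) (Q : Type) where
  /-- origin -/
  E : Bool
  /-- left block symbol -/
  X : Bool
  /-- trail -/
  tr : Bool
  /-- markers -/
  mr : Fin N → Bool
  /-- head -/
  hd : Option (Hd Q)

/-- the quiescent cell -/
def blank (N : ℕ) (Q : Type) : Cell N Q := ⟨false, false, false, fun _ => false, none⟩

instance {Q : Type} [Finite Q] : Finite (Hd Q) := by
  classical
  have : Function.Injective (fun h : Hd Q => match h with
    | .C q => ((0 : Fin 5), q) | .R q => (1, q) | .L q => (2, q) | .P q => (3, q)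
    | .B q => (4, q)) := by
    intro a b hab
    cases a <;> cases b <;> simp_all
  exact Finite.of_injective _ this

instance {N : ℕ} {Q : Type} [Finite Q] : Finite (Cell N Q) := by
  have : Function.Injective (fun c : Cell N Q => (c.E, c.X, c.tr, c.mr, c.hd)) := by
    intro a b hab
    simp only [Prod.mk.injEq] at hab
    exact Cell.ext hab.1 hab.2.1 hab.2.2.1 hab.2.2.2.1 hab.2.2.2.2
  exact Finite.of_injective _ this

variable {N : ℕ} {Q : Type} (ins : Q → CI N Q)

/-- the searching head leaves the cell to the right -/
def outR (s : Cell N Q) : Option Q :=
  match s.hd with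
  | some (.C q) => (match ins q with
    | .inc r _ => if s.mr r then none else some q
    | .dec r _ _ => if s.mr r then none else some q
    | _ => none)
  | some (.R q) => (match ins q with
    | .inc r _ => if s.mr r then none else some q
    | .dec r _ _ => if s.mr r then none else some q
    | _ => none)
  | _ => none

/-- the marker `j` is removed -/
def rem (s : Cell N Q) (j : Fin N) : Bool :=
  match s.hd with
  | some (.C q) => (match ins q with
    | .inc r _ => decide (r = j)
    | _ => false)
  | some (.R q) => (match ins q with
    | .inc r _ => decide (r = j)
    | .dec r _ _ => decide (r = j)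
    | _ => false)
  | _ => false

/-- the marker `j` is passed to the right -/
def addL (l : Cell N Q) (j : Fin N) : Bool :=
  match l.hd with
  | some (.C q) => (match ins q with
    | .inc r _ => decide (r = j) && l.mr r
    | _ => false)
  | some (.R q) => (match ins q with
    | .inc r _ => decide (r = j) && l.mr r
    | _ => false)
  | _ => false

/-- the marker `j` is passed to the left -/
def addR (r : Cell N Q) (j : Fin N) : Bool :=
  match r.hd with
  | some (.R q) => (match ins q with
    | .dec i _ _ => decide (i = j) && r.mr i
    | _ => false)
  | _ => false

/-- the neighbour has a returning head -/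
def isL (r : Cell N Q) : Bool :=
  match r.hd with
  | some (.L _) => true
  | _ => false

/-- the head is a probe -/
def isP (s : Cell N Q) : Bool :=
  match s.hd with
  | some (.P _) => true
  | _ => false

/-- what becomes of the head of a cell -/
def own (l s : Cell N Q) : Option (Hd Q) :=
  match s.hd with
  | some (.C q) => (match ins q with
    | .inc r q' => if s.mr r then some (.C q') else none
    | .dec r _ q' => if s.mr r then some (.C q') else none
    | .jmp q' => some (.C q')
    | .rd _ q' => if l.X then none else some (.C q'))
  | some (.R q) => (match ins q with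
    | .inc r q' => if s.mr r then some (.L q') else none
    | .dec r q' _ => if s.mr r then some (.L q') else none
    | _ => none)
  | some (.P q) => if l.X then none else some (.B q)
  | _ => none

/-- the head arriving in a cell -/
def recv (l s r : Cell N Q) : Option (Hd Q) :=
  match outR ins l with
  | some q => some (.R q)
  | none =>
    match l.hd with
    | some (.B q) => if s.E then some (.C q) else some (.B q)
    | _ =>
      match r.hd with
      | some (.L q) => if s.tr then (if s.E then some (.C q) else some (.L q)) else none
      | some (.C q) => (match ins q with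
        | .rd q' _ => if s.X then some (.P q') else none
        | _ => none)
      | some (.P q) => if s.X then some (.P q) else none
      | _ => none

/-- the local rule -/
def rule (l s r : Cell N Q) : Cell N Q where
  E := s.E
  X := s.X && !(isP s && !l.X)
  tr := (outR ins s).isSome || (s.tr && !(isL r))
  mr := fun j => (s.mr j && !(rem ins s j)) || addL ins l j || (s.tr && addR ins r j)
  hd := match own ins l s with
    | some h => some h
    | none => recv ins l s r

/-- the global map on `ℤ` -/
def stp (e : ℤ → Cell N Q) : ℤ → Cell N Q := fun y => rule ins (e (y - 1)) (e y) (e (y + 1))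

theorem rule_idle {l s r : Cell N Q} (hl : l.hd = none) (hs : s.hd = none) (hr : r.hd = none) :
    rule ins l s r = s := by
  apply Cell.ext
  · rfl
  · simp [rule, isP, hs]
  · simp [rule, outR, isL, hs, hr]
  · funext j
    simp [rule, rem, addL, addR, hl, hs, hr]
  · simp [rule, own, recv, outR, hl, hs, hr]

/-- cells without head, origin, block symbol and trail -/
def Dead (s : Cell N Q) : Prop := s.E = false ∧ s.X = false ∧ s.tr = false ∧ s.hd = none

theorem rule_dead {l s r : Cell N Q} (hl : Dead l) (hs : Dead s) : rule ins l s r = s := by
  obtain ⟨hl1, hl2, hl3, hl4⟩ := hl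
  obtain ⟨hs1, hs2, hs3, hs4⟩ := hs
  apply Cell.ext
  · rfl
  · simp [rule, hs2]
  · simp [rule, outR, hs3, hs4]
  · funext j
    simp [rule, rem, addL, hl4, hs4, hs3]
  · simp only [rule, own, recv, outR, hl4, hs4, hs1, hs2, hs3]
    rcases r.hd with _ | (q | q | q | q | q) <;> simp
    rcases ins q with _ | _ | _ | _ <;> simp

theorem rule_left_dead {l l' s r : Cell N Q} (hl : Dead l) (hl' : Dead l') :
    rule ins l s r = rule ins l' s r := by
  obtain ⟨hl1, hl2, hl3, hl4⟩ := hl
  obtain ⟨hs1, hs2, hs3, hs4⟩ := hl'
  apply Cell.ext
  · rfl
  · simp [rule, hs2, hl2]
  · rfl
  · funext j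
    simp [rule, addL, hl4, hs4]
  · simp only [rule, own, recv, outR, hl4, hs4, hl2, hs2]

end Pool.Agent.Q201.CU
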