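import Pool.Agent.Q201.CU.Moves2

/-!
# The automaton simulates the counter machine
-/

set_option autoImplicit false

namespace Pool.Agent.Q201.CU

open Function

variable {N : ℕ} {Q : Type} (ins : Q → CI N Q)

/-- one step of the machine: state, registers, length of the left block -/
def mst (x : Q × (Fin N → ℕ) × ℕ) : Q × (Fin N → ℕ) × ℕ :=
  match ins x.1 with
  | .inc j q => (q, update x.2.1 j (x.2.1 j + 1), x.2.2)
  | .dec j q q' => if x.2.1 j = 0 then (q', x.2.1, x.2.2)
      else (q, update x.2.1 j (x.2.1 j - 1), x.2.2)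
  | .jmp q => (q, x.2.1, x.2.2)
  | .rd q q' => if x.2.2 = 0 then (q', x.2.1, x.2.2) else (q, x.2.1, x.2.2 - 1)

/-- the configuration coding a machine state -/
def K (x : Q × (Fin N → ℕ) × ℕ) : ℤ → Cell N Q := cf x.2.1 x.2.2 0 0 (.C x.1)

/-- `e'` is reached from `e` and before that the origin does not carry the control state `last` -/
def Reach (last : Q) (e e' : ℤ → Cell N Q) : Prop :=
  ∃ t, (stp ins)^[t] e = e' ∧ ∀ i < t, ((stp ins)^[i] e 0).hd ≠ some (.C last)

variable {ins} {last : Q}

theorem Reach.refl (e : ℤ → Cell N Q) : Reach ins last e e := ⟨0, rfl, fun i hi => by omega⟩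

theorem Reach.trans {e e' e'' : ℤ → Cell N Q} (h1 : Reach ins last e e')
    (h2 : Reach ins last e' e'') : Reach ins last e e'' := by
  obtain ⟨t, ht, hi⟩ := h1
  obtain ⟨s, hs, hj⟩ := h2
  refine ⟨s + t, by rw [iterate_add_apply, ht, hs], fun i hit => ?_⟩
  by_cases h : i < t
  · exact hi i h
  · obtain ⟨k, rfl⟩ : ∃ k, i = k + t := ⟨i - t, by omega⟩
    rw [iterate_add_apply, ht]
    exact hj k (by omega)

theorem Reach.one {e e' : ℤ → Cell N Q} (h : stp ins e = e') (h0 : (e 0).hd ≠ some (.C last)) :
    Reach ins last e e' := by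
  refine ⟨1, h, fun i hi => ?_⟩
  have : i = 0 := by omega
  subst this
  exact h0

theorem cf_ne_last {σ : Fin N → ℕ} {p u : ℕ} {pos : ℤ} {h : Hd Q} (hpos : pos ≠ 0) :
    (cf σ p u pos h 0).hd ≠ some (.C last) := by
  rw [cf_hd' _ _ _ _ _ hpos.symm]
  simp

theorem cf_ne_last' {σ : Fin N → ℕ} {p u : ℕ} {q : Q} (hq : q ≠ last) :
    (cf σ p u 0 (.C q) 0).hd ≠ some (.C last) := by
  rw [cf_hd]
  simpa using hq

theorem reach_search (σ : Fin N → ℕ) (p : ℕ) (q : Q) (j : Fin N) (hq : On ins q j) (d : ℕ) :
    ∀ x : ℕ, 1 ≤ x → x + d = σ j →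
      Reach ins last (cf σ p x x (.R q)) (cf σ p (σ j) (σ j : ℕ) (.R q)) := by
  induction d with
  | zero =>
    intro x hx hxd
    have : x = σ j := by omega
    subst this
    exact Reach.refl _
  | succ d ih =>
    intro x hx hxd
    refine (Reach.one (move_search ins σ p x q j hq hx (by omega))
      (cf_ne_last (by omega))).trans ?_
    have := ih (x + 1) (by omega) (by omega)
    push_cast at this
    exact this

theorem reach_back (σ : Fin N → ℕ) (p : ℕ) (q : Q) (x : ℕ) :
    Reach ins last (cf σ p (x + 1) ((x + 1 : ℕ) : ℤ) (.L q)) (cf σ p 0 0 (.C q)) := by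
  induction x with
  | zero => exact Reach.one (move_home ins σ p q) (cf_ne_last (by simp))
  | succ x ih =>
    have := move_back ins σ p (x + 1) q (by omega)
    refine (Reach.one ?_ (cf_ne_last (by omega))).trans ih
    push_cast at this ⊢
    exact this

theorem reach_probe (σ : Fin N → ℕ) (p : ℕ) (q : Q) (d : ℕ) :
    ∀ i : ℕ, 1 ≤ i → i + d = p →
      Reach ins last (cf σ p 0 (-(i : ℤ)) (.P q)) (cf σ p 0 (-(p : ℤ)) (.P q)) := by
  induction d with
  | zero =>
    intro x hx hxd
    have : x = p := by omega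
    subst this
    exact Reach.refl _
  | succ d ih =>
    intro i hi hid
    exact (Reach.one (move_probe ins σ p i q hi (by omega)) (cf_ne_last (by omega))).trans
      (ih (i + 1) (by omega) (by omega))

theorem reach_carry (σ : Fin N → ℕ) (p : ℕ) (q : Q) (i : ℕ) :
    Reach ins last (cf σ p 0 (-((i + 1 : ℕ) : ℤ)) (.B q)) (cf σ p 0 0 (.C q)) := by
  induction i with
  | zero => exact Reach.one (move_deliver ins σ p q) (cf_ne_last (by simp))
  | succ i ih =>
    exact (Reach.one (move_carry ins σ p (i + 1) q (by omega)) (cf_ne_last (by omega))).trans ih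

theorem reach_step (x : Q × (Fin N → ℕ) × ℕ) (hx : x.1 ≠ last) :
    Reach ins last (K x) (K (mst ins x)) := by
  obtain ⟨q, σ, p⟩ := x
  simp only at hx
  unfold K mst
  cases hq : ins q with
  | inc j q' =>
    simp only [hq]
    by_cases hj : σ j = 0
    · rw [hj, zero_add]
      exact Reach.one (move_inc_found ins σ p q q' j hq hj) (cf_ne_last' hx)
    · refine (Reach.one (move_start ins σ p q j (Or.inl ⟨q', hq⟩) hj) (cf_ne_last' hx)).trans ?_
      refine (reach_search σ p q j (Or.inl ⟨q', hq⟩) (σ j - 1) 1 le_rfl (by omega)).trans ?_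
      refine (Reach.one (move_inc ins σ p (σ j) q q' j hq (by omega) rfl)
        (cf_ne_last (by omega))).trans ?_
      obtain ⟨y, hy⟩ : ∃ y, σ j = y + 1 := ⟨σ j - 1, by omega⟩
      rw [hy]
      exact reach_back _ p q' y
  | dec j q' q'' =>
    simp only [hq]
    by_cases hj : σ j = 0
    · rw [if_pos hj]
      exact Reach.one (move_zero ins σ p q q' q'' j hq hj) (cf_ne_last' hx)
    · rw [if_neg hj]
      refine (Reach.one (move_start ins σ p q j (Or.inr ⟨q', q'', hq⟩) hj)
        (cf_ne_last' hx)).trans ?_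
      refine (reach_search σ p q j (Or.inr ⟨q', q'', hq⟩) (σ j - 1) 1 le_rfl
        (by omega)).trans ?_
      refine (Reach.one (move_dec ins σ p (σ j) q q' q'' j hq (by omega) rfl)
        (cf_ne_last (by omega))).trans ?_
      obtain ⟨y, hy⟩ : ∃ y, σ j = y + 1 := ⟨σ j - 1, by omega⟩
      rw [hy]
      exact reach_back _ p q' y
  | jmp q' =>
    simp only [hq]
    exact Reach.one (move_jmp ins σ p q q' hq) (cf_ne_last' hx)
  | rd q' q'' =>
    simp only [hq]
    by_cases hp : p = 0
    · subst hp
      rw [if_pos rfl]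
      exact Reach.one (move_empty ins σ q q' q'' hq) (cf_ne_last' hx)
    · rw [if_neg hp]
      refine (Reach.one (move_read ins σ p q q' q'' hq (by omega)) (cf_ne_last' hx)).trans ?_
      have h1 := reach_probe (ins := ins) (last := last) σ p q' (p - 1) 1 le_rfl (by omega)
      refine (show Reach ins last (cf σ p 0 (-1) (.P q')) _ from h1).trans ?_
      obtain ⟨y, rfl⟩ : ∃ y, p = y + 1 := ⟨p - 1, by omega⟩
      refine (Reach.one (move_turn ins σ y q') (cf_ne_last (by omega))).trans ?_
      rw [Nat.add_sub_cancel]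
      exact reach_carry σ y q' y

/-- a run of the machine which does not meet `last` before its end -/
theorem reach_run (x : Q × (Fin N → ℕ) × ℕ) (T : ℕ)
    (hT : ∀ i < T, ((mst ins)^[i] x).1 ≠ last) :
    Reach ins last (K x) (K ((mst ins)^[T] x)) := by
  induction T with
  | zero => exact Reach.refl _
  | succ T ih =>
    rw [iterate_succ_apply']
    exact (ih fun i hi => hT i (by omega)).trans (reach_step _ (hT T (by omega)))

end Pool.Agent.Q201.CU
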