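import Pool.Agent.Q201.CU.Prog
import Pool.Agent.Helper273.Machine

/-!
# The universal machine
-/

set_option autoImplicit false

namespace Pool.Agent.Q201.CU

open Function Pool.Agent.Helper273.Reg
open Pool.Agent.Helper273.Machine (res res_update ofNat_val)
open Nat.Partrec (Code)

/-- read the left block into register `1`, then run the flat program -/
def cins (N L : ℕ) (P : List Ins) : Fin (L + 1) ⊕ Bool → CI (N + 3) (Fin (L + 1) ⊕ Bool)
  | .inl i => match P[(i : ℕ)]? with
    | some (.inc r t) => .inc (Fin.ofNat (N + 3) r) (.inl (Fin.ofNat (L + 1) t))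
    | some (.dec r t t') => .dec (Fin.ofNat (N + 3) r) (.inl (Fin.ofNat (L + 1) t))
        (.inl (Fin.ofNat (L + 1) t'))
    | some (.jmp t) => .jmp (.inl (Fin.ofNat (L + 1) t))
    | none => .jmp (.inl i)
  | .inr true => .rd (.inr false) (.inl 0)
  | .inr false => .inc 1 (.inr true)

theorem cins_last {N L : ℕ} {P : List Ins} (hlen : P.length = L) :
    cins N L P (.inl (Fin.last L)) = .jmp (.inl (Fin.last L)) := by
  have : P[((Fin.last L : Fin (L + 1)) : ℕ)]? = none := by
    rw [List.getElem?_eq_none_iff, hlen]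
    simp
  simp only [cins, this]

theorem cstep {N L : ℕ} {P : List Ins} (hlen : P.length = L) (hP : ∀ i ∈ P, Ok (N + 3) L i)
    (pc : ℕ) (σ : ℕ → ℕ) (p : ℕ) (hpc : pc ≤ L) :
    mst (cins N L P) (.inl (Fin.ofNat (L + 1) pc), res (N + 3) σ, p) =
      (.inl (Fin.ofNat (L + 1) (step P (pc, σ)).1), res (N + 3) (step P (pc, σ)).2, p) ∧
      (step P (pc, σ)).1 ≤ L := by
  have hv : ((Fin.ofNat (L + 1) pc : Fin (L + 1)) : ℕ) = pc := ofNat_val _ _ (by omega)
  unfold mst step cins
  simp only [hv]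
  cases hi : P[pc]? with
  | none => exact ⟨rfl, hpc⟩
  | some i =>
    have hmem : i ∈ P := List.mem_of_getElem? hi
    have hok := hP i hmem
    cases i with
    | inc r t =>
      have hr : r < N + 3 := hok.1
      have h1 : res (N + 3) σ (Fin.ofNat (N + 3) r) = σ r := by
        simp only [res]; rw [ofNat_val (N + 2) r (by omega)]
      simp only [h1]
      refine ⟨?_, hok.2⟩
      rw [res_update σ r _ (by omega)]
    | dec r t t' =>
      have hr : r < N + 3 := hok.1
      have h1 : res (N + 3) σ (Fin.ofNat (N + 3) r) = σ r := by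
        simp only [res]; rw [ofNat_val (N + 2) r (by omega)]
      simp only [h1]
      by_cases h0 : σ r = 0
      · simp only [h0, if_true]
        exact ⟨trivial, hok.2.2⟩
      · simp only [h0, if_false]
        refine ⟨?_, hok.2.1⟩
        rw [res_update σ r _ (by omega)]
    | jmp t =>
      exact ⟨rfl, hok⟩

theorem citer {N L : ℕ} {P : List Ins} (hlen : P.length = L) (hP : ∀ i ∈ P, Ok (N + 3) L i)
    (σ : ℕ → ℕ) (p : ℕ) (j : ℕ) :
    (mst (cins N L P))^[j] (.inl (Fin.ofNat (L + 1) 0), res (N + 3) σ, p) =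
      (.inl (Fin.ofNat (L + 1) ((step P)^[j] (0, σ)).1), res (N + 3) ((step P)^[j] (0, σ)).2, p) ∧
      ((step P)^[j] (0, σ)).1 ≤ L := by
  induction j with
  | zero => exact ⟨rfl, Nat.zero_le _⟩
  | succ j ih =>
    obtain ⟨h1, h2⟩ := ih
    rw [iterate_succ_apply', iterate_succ_apply', h1]
    exact cstep hlen hP _ _ _ h2

/-- the reading phase -/
theorem cread {N L : ℕ} {P : List Ins} (p : ℕ) : ∀ σ : Fin (N + 3) → ℕ,
    ∃ T, (mst (cins N L P))^[T] (.inr true, σ, p) = (.inl 0, update σ 1 (σ 1 + p), 0) := by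
  induction p with
  | zero =>
    intro σ
    refine ⟨1, ?_⟩
    rw [iterate_one]
    have : mst (cins N L P) (.inr true, σ, 0) = (.inl 0, σ, 0) := rfl
    rw [this, Nat.add_zero (σ 1), update_eq_self]
  | succ p ih =>
    intro σ
    obtain ⟨T, hT⟩ := ih (update σ 1 (σ 1 + 1))
    refine ⟨T + 2, ?_⟩
    rw [iterate_add_apply]
    have : (mst (cins N L P))^[2] (.inr true, σ, p + 1) =
        (.inr true, update σ 1 (σ 1 + 1), p) := rfl
    rw [this, hT]
    rw [update_idem, update_self]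
    have : σ 1 + 1 + p = σ 1 + (p + 1) := by ring
    rw [this]

/-- register `0` holds `m` and the other registers are empty -/
def reg0 (N m : ℕ) : Fin N → ℕ := fun r => if (r : ℕ) = 0 then m else 0

theorem exists_univ : ∃ (N L : ℕ) (ins : Fin (L + 1) ⊕ Bool → CI (N + 3) (Fin (L + 1) ⊕ Bool)),
    ins (.inl (Fin.last L)) = .jmp (.inl (Fin.last L)) ∧
    ∀ p n y : ℕ, y ∈ (Denumerable.ofNat Code p).eval n →
      ∃ T, (mst ins)^[T] (.inr true, reg0 (N + 3) (n + 1), p) =
        (.inl (Fin.last L), reg0 (N + 3) (y + 1), 0) ∧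
        ∀ i < T, ((mst ins)^[i] (.inr true, reg0 (N + 3) (n + 1), p)).1 ≠ .inl (Fin.last L) := by
  obtain ⟨pr, hpr⟩ := exists_prog
  set P := code pr 0 with hPdef
  set L := len pr with hL
  have hlen : P.length = L := length_code _ _
  obtain ⟨K0, hK0⟩ := code_ok pr
  have hP : ∀ i ∈ P, Ok (K0 + 3) L i := fun i hi => (hK0 0 i hi).mono (by omega) (by omega)
  have hat : IsAt P 0 (code pr 0) := ⟨[], [], by simp [hPdef], rfl⟩
  refine ⟨K0, L, cins K0 L P, cins_last hlen, fun p n y hy => ?_⟩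
  have hres : ∀ m, res (K0 + 3) (S5 m 0 0 0 0) = reg0 (K0 + 3) m := by
    intro m
    funext r
    simp only [res, S5, reg0]
    split_ifs <;> rfl
  have hzero : (Fin.ofNat (L + 1) 0 : Fin (L + 1)) = 0 := rfl
  have hlast : (Fin.ofNat (L + 1) L : Fin (L + 1)) = Fin.last L := by
    apply Fin.ext
    rw [ofNat_val L L (by omega)]
    rfl
  obtain ⟨T1, hT1⟩ := cread (N := K0) (L := L) (P := P) p (reg0 (K0 + 3) (n + 1))
  have hupd : update (reg0 (K0 + 3) (n + 1)) 1 (reg0 (K0 + 3) (n + 1) 1 + p) =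
      res (K0 + 3) (S5 (n + 1) p 0 0 0) := by
    funext r
    by_cases hr : r = 1
    · subst hr
      rw [update_self]
      simp [reg0, res, S5]
    · rw [update_of_ne hr]
      have : (r : ℕ) ≠ 1 := fun h => hr (Fin.ext (by simpa using h))
      simp only [reg0, res, S5]
      split_ifs <;> rfl
  rw [hupd] at hT1
  obtain ⟨T2, hT2⟩ := sim (hpr p n y hy) P 0 hat
  rw [zero_add] at hT2
  have h3 := (citer hlen hP (S5 (n + 1) p 0 0 0) 0 T2).1
  rw [hzero, hT2, hlast, hres] at h3
  set x0 : (Fin (L + 1) ⊕ Bool) × (Fin (K0 + 3) → ℕ) × ℕ :=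
    (.inr true, reg0 (K0 + 3) (n + 1), p) with hx0
  have h4 : (mst (cins K0 L P))^[T2 + T1] x0 =
      (.inl (Fin.last L), reg0 (K0 + 3) (y + 1), 0) := by
    rw [iterate_add_apply, hT1, h3]
  classical
  have hex : ∃ T, ((mst (cins K0 L P))^[T] x0).1 = .inl (Fin.last L) := ⟨_, by rw [h4]⟩
  refine ⟨Nat.find hex, ?_, fun i hi => Nat.find_min hex hi⟩
  have h5 := Nat.find_spec hex
  have hle : Nat.find hex ≤ T2 + T1 := Nat.find_min' hex (by rw [h4])
  set T := Nat.find hex with hT
  have hfix : mst (cins K0 L P) ((mst (cins K0 L P))^[T] x0) = (mst (cins K0 L P))^[T] x0 := by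
    generalize hz : (mst (cins K0 L P))^[T] x0 = z at h5 ⊢
    obtain ⟨z1, z2, z3⟩ := z
    simp only at h5
    subst h5
    simp only [mst, cins_last hlen]
  obtain ⟨k, hk⟩ : ∃ k, T2 + T1 = k + T := ⟨T2 + T1 - T, by omega⟩
  rw [hk, iterate_add_apply, iterate_fixed hfix k] at h4
  exact h4

end Pool.Agent.Q201.CU
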